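import Pool.Agent.R460.SQ.Per
import Pool.Agent.Y697.GJ.LiftC
import Pool.Agent.Y872.GJ.Pars
import Pool.Agent.Y812.GJ.L2

set_option autoImplicit false

/-! The sums over a class, the identity of Parseval and the lifting inequality. -/

namespace Pool.Agent.R460.SQ

open Finset
open Pool.Agent.H807R2.Dav (ee norm_ee ee_add ee_add_int)
open Pool.Agent.Y883.GJ (cl)

/-- the correlation with a quadratic polynomial -/
noncomputable def cvs (α : ℤ) (G : ℕ → ℂ) (y N : ℕ) (n : ℤ) : ℂ :=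
  ∑ m ∈ Icc 1 y, ∑ l ∈ Icc 1 N, if (l : ℤ) + α * (m : ℤ) ^ 2 = n then G l else 0

/-- the sum over one class -/
noncomputable def TT (α : ℤ) (G : ℕ → ℂ) (y N q : ℕ) (β : ℝ) (a : ZMod q) : ℂ :=
  ∑ m ∈ Icc 1 y, ee ((α : ℝ) * (m : ℝ) ^ 2 * β) * cl q N G β (a - (α : ZMod q) * (m : ZMod q) ^ 2)

/-- the part of the quadratic sum in one class -/
noncomputable def SF (α : ℤ) (y q : ℕ) (β : ℝ) (k : ZMod q) : ℂ :=
  ∑ m ∈ (Icc 1 y).filter (fun m : ℕ => (m : ZMod q) = k), ee ((α : ℝ) * (m : ℝ) ^ 2 * β)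

/-- the integers of one class -/
noncomputable def cls (R q : ℕ) (a : ZMod q) : Finset ℤ := (Icc (-(R : ℤ)) R).filter (fun n : ℤ => (n : ZMod q) = a)

lemma TT_eq {α : ℤ} {G : ℕ → ℂ} {y N q : ℕ} (hy : y ^ 2 ≤ N) (β : ℝ) (a : ZMod q) :
    TT α G y N q β a = ∑ n ∈ cls ((α.natAbs + 1) * N) q a, cvs α G y N n * ee (n * β) := by
  obtain ⟨R, hR⟩ : ∃ R, R = (α.natAbs + 1) * N := ⟨_, rfl⟩
  rw [← hR]
  have h1 : ∑ n ∈ cls R q a, cvs α G y N n * ee (n * β) =
      ∑ m ∈ Icc 1 y, ∑ l ∈ Icc 1 N, ∑ n ∈ cls R q a,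
        (if (l : ℤ) + α * (m : ℤ) ^ 2 = n then G l * ee (n * β) else 0) := by
    unfold cvs
    rw [sum_congr rfl fun n _ => sum_mul _ _ _, sum_comm]
    refine sum_congr rfl fun m _ => ?_
    rw [sum_congr rfl fun n _ => sum_mul _ _ _, sum_comm]
    refine sum_congr rfl fun l _ => sum_congr rfl fun n _ => ?_
    split_ifs
    · rfl
    · rw [zero_mul]
  rw [h1]
  unfold TT cl
  refine sum_congr rfl fun m hm => ?_
  rw [mul_sum, sum_filter]
  refine sum_congr rfl fun l hl => ?_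
  rw [mem_Icc] at hm hl
  have h2 : (l : ℤ) + α * (m : ℤ) ^ 2 ∈ Icc (-(R : ℤ)) R := by
    have h3 : (m : ℤ) ^ 2 ≤ N := by
      have : m ^ 2 ≤ N := (Nat.pow_le_pow_left hm.2 2).trans hy
      exact_mod_cast this
    have h4 : (l : ℤ) ≤ N := by exact_mod_cast hl.2
    have h5 : |α * (m : ℤ) ^ 2| ≤ |α| * N := by
      rw [abs_mul, abs_of_nonneg (sq_nonneg (m : ℤ))]
      exact mul_le_mul_of_nonneg_left h3 (abs_nonneg _)
    have h6 : ((R : ℕ) : ℤ) = |α| * N + N := by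
      rw [hR]
      push_cast
      ring
    have h7 := abs_le.1 h5
    rw [mem_Icc, h6]
    constructor
    · have : (0 : ℤ) ≤ l := Nat.cast_nonneg _
      have : (0 : ℤ) ≤ N := Nat.cast_nonneg _
      linarith [h7.1]
    · linarith [h7.2]
  rw [sum_ite_eq]
  have h3 : (l : ℤ) + α * (m : ℤ) ^ 2 ∈ cls R q a ↔ (l : ZMod q) = a - (α : ZMod q) * (m : ZMod q) ^ 2 := by
    unfold cls
    rw [mem_filter]
    push_cast
    constructor
    · rintro ⟨-, h⟩
      rw [← h]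
      ring
    · intro h
      refine ⟨h2, ?_⟩
      rw [h]
      ring
  by_cases h : (l : ZMod q) = a - (α : ZMod q) * (m : ZMod q) ^ 2
  · rw [if_pos h, if_pos (h3.2 h)]
    have h4 : (((l : ℤ) + α * (m : ℤ) ^ 2 : ℤ) : ℝ) * β = (α : ℝ) * (m : ℝ) ^ 2 * β + l * β := by
      push_cast
      ring
    rw [h4, ee_add]
    ring
  · rw [if_neg h, if_neg (fun hh => h (h3.1 hh))]

/-- Parseval -/
lemma TT_mean {α : ℤ} {G : ℕ → ℂ} {y N q : ℕ} (hy : y ^ 2 ≤ N) (a : ZMod q) :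
    ((2 * ((α.natAbs + 1) * N) + 1 : ℕ) : ℝ) * ∑ n ∈ cls ((α.natAbs + 1) * N) q a, ‖cvs α G y N n‖ ^ 2 =
      ∑ t ∈ range (2 * ((α.natAbs + 1) * N) + 1),
        ‖TT α G y N q ((t : ℝ) / (2 * ((α.natAbs + 1) * N) + 1 : ℕ)) a‖ ^ 2 := by
  rw [← Pool.Agent.Y697.GJ.pars_gen (M := 2 * ((α.natAbs + 1) * N) + 1) (by omega)
    (cls ((α.natAbs + 1) * N) q a) ?_ (fun n => cvs α G y N n)]
  · refine sum_congr rfl fun t _ => ?_
    rw [TT_eq hy]
  · intro k hk k' hk' hd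
    unfold cls at hk hk'
    rw [mem_filter, mem_Icc] at hk hk'
    obtain ⟨c, hc⟩ := hd
    have h1 := hk.1
    have h2 := hk'.1
    obtain ⟨R, hR⟩ : ∃ R, R = (α.natAbs + 1) * N := ⟨_, rfl⟩
    rw [← hR] at h1 h2 hc
    push_cast at hc
    have h3 : c = 0 := by
      by_contra h0
      rcases lt_or_gt_of_ne h0 with h | h
      · nlinarith
      · nlinarith
    rw [h3, mul_zero] at hc
    linarith

lemma ee_class {M : ℕ} [NeZero M] (h : ℤ) (n : ℤ) (a : ZMod M) (hn : (n : ZMod M) = a) :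
    ee ((n : ℝ) * ((h : ℝ) / M)) = ee ((a.val : ℝ) * ((h : ℝ) / M)) := by
  have hM : (M : ℝ) ≠ 0 := by exact_mod_cast NeZero.ne M
  have h1 : ((n : ℤ) : ZMod M) = ((a.val : ℤ) : ZMod M) := by
    rw [hn]
    push_cast
    rw [ZMod.natCast_zmod_val]
  rw [ZMod.intCast_eq_intCast_iff_dvd_sub] at h1
  obtain ⟨c, hc⟩ := h1
  have h2 : (a.val : ℝ) = n + M * c := by
    have : (a.val : ℤ) = n + M * c := by linarith
    exact_mod_cast this
  have h3 : (a.val : ℝ) * ((h : ℝ) / M) = (n : ℝ) * ((h : ℝ) / M) + ((c * h : ℤ) : ℝ) := by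
    rw [h2]
    push_cast
    field_simp
  rw [h3, ee_add_int]

/-- the lifting inequality -/
lemma TT_lift {α : ℤ} {G : ℕ → ℂ} {y N q k : ℕ} [NeZero q] [NeZero (k * q)] (hy : y ^ 2 ≤ N) {h : ℤ} {β η : ℝ}
    (hβ : β = h / (k * q : ℕ) + η) (a : ZMod q) :
    ‖TT α G y N q β a‖ ≤ ∑ a' ∈ univ.filter (fun a' : ZMod (k * q) => ((a'.val : ℕ) : ZMod q) = a),
      ‖TT α G y N (k * q) η a'‖ := by
  rw [TT_eq hy]
  have h1 : ∑ n ∈ cls ((α.natAbs + 1) * N) q a, cvs α G y N n * ee (n * β) =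
      ∑ a' ∈ univ.filter (fun a' : ZMod (k * q) => ((a'.val : ℕ) : ZMod q) = a),
        ee ((a'.val : ℝ) * ((h : ℝ) / (k * q : ℕ))) * TT α G y N (k * q) η a' := by
    rw [← Finset.sum_fiberwise_of_maps_to (s := cls ((α.natAbs + 1) * N) q a)
      (t := univ.filter (fun a' : ZMod (k * q) => ((a'.val : ℕ) : ZMod q) = a)) (g := fun n : ℤ => (n : ZMod (k * q)))]
    · refine sum_congr rfl fun a' ha' => ?_
      rw [TT_eq hy, mul_sum]
      have hset : (cls ((α.natAbs + 1) * N) q a).filter (fun n : ℤ => (n : ZMod (k * q)) = a') =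
          cls ((α.natAbs + 1) * N) (k * q) a' := by
        ext n
        unfold cls
        rw [mem_filter, mem_filter, mem_filter]
        constructor
        · rintro ⟨⟨c1, _⟩, c3⟩
          exact ⟨c1, c3⟩
        · rintro ⟨c1, c3⟩
          refine ⟨⟨c1, ?_⟩, c3⟩
          rw [mem_filter] at ha'
          rw [← ha'.2, ← c3]
          have e1 : ((n : ZMod (k * q)).val : ℤ) = n % ((k * q : ℕ) : ℤ) := ZMod.val_intCast n
          have e2 : (((n : ZMod (k * q)).val : ℕ) : ZMod q) = ((((n : ZMod (k * q)).val : ℤ)) : ZMod q) := by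
            push_cast
            rfl
          rw [e2, e1]
          have e3 : n = n % ((k * q : ℕ) : ℤ) + ((k * q : ℕ) : ℤ) * (n / ((k * q : ℕ) : ℤ)) :=
            (Int.emod_add_mul_ediv n _).symm
          conv_lhs => rw [e3]
          push_cast
          rw [ZMod.natCast_self]
          ring
      rw [hset]
      refine sum_congr rfl fun n hn => ?_
      unfold cls at hn
      rw [mem_filter] at hn
      have e1 : (n : ℝ) * β = (n : ℝ) * ((h : ℝ) / (k * q : ℕ)) + n * η := by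
        rw [hβ]
        ring
      rw [e1, ee_add, ee_class h n a' hn.2]
      ring
    · intro n hn
      unfold cls at hn
      rw [mem_filter] at hn ⊢
      refine ⟨mem_univ _, ?_⟩
      rw [← hn.2]
      have e1 : ((n : ZMod (k * q)).val : ℤ) = n % ((k * q : ℕ) : ℤ) := ZMod.val_intCast n
      have e2 : (((n : ZMod (k * q)).val : ℕ) : ZMod q) = ((((n : ZMod (k * q)).val : ℤ)) : ZMod q) := by
        push_cast
        rfl
      rw [e2, e1]
      have e3 : n = n % ((k * q : ℕ) : ℤ) + ((k * q : ℕ) : ℤ) * (n / ((k * q : ℕ) : ℤ)) :=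
        (Int.emod_add_mul_ediv n _).symm
      conv_rhs => rw [e3]
      push_cast
      rw [ZMod.natCast_self]
      ring
  rw [h1]
  refine (norm_sum_le _ _).trans (le_of_eq (sum_congr rfl fun a' _ => ?_))
  rw [norm_mul, norm_ee, one_mul]

/-- Cauchy's inequality -/
lemma TT_cauchy {α : ℤ} {G : ℕ → ℂ} {y N q : ℕ} [NeZero q] (β : ℝ) (a : ZMod q) :
    ‖TT α G y N q β a‖ ^ 2 ≤ (∑ k : ZMod q, ‖SF α y q β k‖ ^ 2) *
      ∑ k : ZMod q, ‖cl q N G β (a - (α : ZMod q) * k ^ 2)‖ ^ 2 := by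
  have h1 : TT α G y N q β a = ∑ k : ZMod q, SF α y q β k * cl q N G β (a - (α : ZMod q) * k ^ 2) := by
    unfold TT SF
    rw [← Finset.sum_fiberwise (Icc 1 y) (fun m : ℕ => (m : ZMod q))]
    refine sum_congr rfl fun k _ => ?_
    rw [sum_mul]
    refine sum_congr rfl fun m hm => ?_
    rw [(mem_filter.1 hm).2]
  rw [h1]
  calc ‖∑ k : ZMod q, SF α y q β k * cl q N G β (a - (α : ZMod q) * k ^ 2)‖ ^ 2
      ≤ (∑ k : ZMod q, ‖SF α y q β k‖ * ‖cl q N G β (a - (α : ZMod q) * k ^ 2)‖) ^ 2 := by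
        apply pow_le_pow_left₀ (norm_nonneg _)
        refine (norm_sum_le _ _).trans (le_of_eq (sum_congr rfl fun k _ => norm_mul _ _))
    _ ≤ _ := sum_mul_sq_le_sq_mul_sq _ _ _

/-- the mean square of the second factor -/
lemma cl_mean {q N D : ℕ} [NeZero q] {G : ℕ → ℂ} {b : ℝ} (hG : ∀ n ∈ Icc 1 N, ‖G n‖ ≤ b)
    (hD : N < D) (c : ZMod q) :
    ∑ t ∈ range D, ‖cl q N G ((t : ℝ) / D) c‖ ^ 2 ≤ D * (((N : ℝ) / q + 1) * b ^ 2) := by
  unfold cl
  rw [Pool.Agent.Y872.GJ.parseval D ((Icc 1 N).filter (fun n : ℕ => (n : ZMod q) = c)) (by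
    intro n hn
    rw [mem_filter, mem_Icc] at hn
    omega) G]
  apply mul_le_mul_of_nonneg_left _ (Nat.cast_nonneg _)
  have h1 := Pool.Agent.Y812.GJ.card_class q N c
  calc ∑ n ∈ (Icc 1 N).filter (fun n : ℕ => (n : ZMod q) = c), ‖G n‖ ^ 2
      ≤ ∑ _n ∈ (Icc 1 N).filter (fun n : ℕ => (n : ZMod q) = c), b ^ 2 := by
        refine sum_le_sum fun n hn => ?_
        exact pow_le_pow_left₀ (norm_nonneg _) (hG n (mem_filter.1 hn).1) 2
    _ = (((Icc 1 N).filter (fun n : ℕ => (n : ZMod q) = c)).card : ℝ) * b ^ 2 := by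
        rw [sum_const, nsmul_eq_mul]
    _ ≤ _ := by
        apply mul_le_mul_of_nonneg_right _ (sq_nonneg _)
        exact h1

end Pool.Agent.R460.SQ
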