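import Pool.Agent.R460.SQ.Core
import Pool.Agent.R460.GH.Asm
import Pool.Agent.TH935.LP.L1

set_option autoImplicit false

/-! The difference of the von Mangoldt function and the sieve model. -/

namespace Pool.Agent.R460.SQ

open Finset
open Pool.Agent.R460.GS
open Pool.Agent.R460.GH
open Pool.Agent.H807R2.Dav (ee norm_ee)
open Pool.Agent.H373R2.T7 (lamz Vz pz lamz_ap lam_ap Vz_pos)
open Pool.Agent.Y883.T3 (lsh)
open Pool.Agent.Y883.GJ
open Pool.Agent.Y614.GJ.Core (ev_log)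

/-- the difference of the von Mangoldt function and the sieve model -/
noncomputable def DZ (z n : ℕ) : ℂ := ((ArithmeticFunction.vonMangoldt n - lamz z n : ℝ) : ℂ)

/-- the difference of the two models -/
noncomputable def EZ (z r n : ℕ) : ℂ := ((lamz z n - lsh z r n : ℝ) : ℂ)

lemma norm_DZ (z n : ℕ) : ‖DZ z n‖ = |ArithmeticFunction.vonMangoldt n - lamz z n| := by
  unfold DZ
  rw [Complex.norm_real, Real.norm_eq_abs]

lemma norm_EZ (z r n : ℕ) : ‖EZ z r n‖ = |lamz z n - lsh z r n| := by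
  unfold EZ
  rw [Complex.norm_real, Real.norm_eq_abs]

lemma DZ_eq (z r : ℕ) : DZ z = fun n => FF z r n - EZ z r n := by
  funext n
  unfold DZ FF EZ
  push_cast
  ring

lemma lamz_nn (z n : ℕ) : 0 ≤ lamz z n := by
  unfold lamz
  split_ifs
  · exact (inv_pos.2 (Vz_pos z)).le
  · exact le_rfl

lemma lamz_le (z n : ℕ) : lamz z n ≤ (Vz z)⁻¹ := by
  unfold lamz
  split_ifs
  · exact le_rfl
  · exact (inv_pos.2 (Vz_pos z)).le

lemma bd_DZ {N z : ℕ} (hV : (Vz z)⁻¹ ≤ Real.log N) (hL : 1 ≤ Real.log N) {n : ℕ} (hn : n ∈ Icc 1 N) :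
    ‖DZ z n‖ ≤ Real.log N ^ 2 := by
  rw [norm_DZ]
  have h1 := vm_le hn
  have h2 := (lamz_le z n).trans hV
  have h3 := lamz_nn z n
  have h4 : 0 ≤ ArithmeticFunction.vonMangoldt n := ArithmeticFunction.vonMangoldt_nonneg
  have h5 : |ArithmeticFunction.vonMangoldt n - lamz z n| ≤ Real.log N := by
    rw [abs_le]
    constructor <;> linarith
  nlinarith

lemma bd_EZ {U N z r : ℕ} (hP : Par U N z r) (hL : 1 ≤ Real.log N) {n : ℕ} (hn : n ∈ Icc 1 N) :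
    ‖EZ z r n‖ ≤ 3 * Real.log N * (n.divisors.card : ℝ) := by
  rw [norm_EZ]
  have h1 := vm_le hn
  have h2 := (lamz_le z n).trans hP.hV
  have h3 := lamz_nn z n
  have h4 : 0 ≤ ArithmeticFunction.vonMangoldt n := ArithmeticFunction.vonMangoldt_nonneg
  have h5 : |lamz z n - ArithmeticFunction.vonMangoldt n| ≤ Real.log N := by
    rw [abs_le]
    constructor <;> linarith
  have h6 := hP.hT n hn
  have h7 := one_le_div hn
  have h8 : lamz z n - lsh z r n = (lamz z n - ArithmeticFunction.vonMangoldt n) +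
    (ArithmeticFunction.vonMangoldt n - lsh z r n) := by ring
  rw [h8]
  refine (abs_add_le _ _).trans ?_
  nlinarith

/-- the mean square of the difference of the models -/
lemma EZ_sq {V N z r : ℕ} (hP : Par 0 N z r) (hL : 200 ≤ Real.log N) (hN : 1 ≤ N)
    (hsum : ∑ n ∈ Icc 1 N, |lamz z n - lsh z r n| ≤ N / Real.log N ^ (2 * V + 14)) :
    ∑ n ∈ Icc 1 N, ‖EZ z r n‖ ^ 2 ≤ N / Real.log N ^ V := by
  have hN0 : (0 : ℝ) < N := by exact_mod_cast hN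
  have hb : ∀ n ∈ Icc 1 N, ‖EZ z r n‖ ≤ 3 * Real.log N * (n.divisors.card : ℝ) :=
    fun n hn => bd_EZ hP (by linarith) hn
  obtain ⟨L, hLd⟩ : ∃ L, L = Real.log (N : ℝ) := ⟨_, rfl⟩
  rw [← hLd] at hL hsum hb ⊢
  have hL0 : 0 < L := by linarith
  have h1 : (∑ n ∈ Icc 1 N, ‖EZ z r n‖ ^ 2) ^ 2 ≤ (∑ n ∈ Icc 1 N, ‖EZ z r n‖) * ∑ n ∈ Icc 1 N, ‖EZ z r n‖ ^ 3 := by
    have h2 := sum_mul_sq_le_sq_mul_sq (Icc 1 N) (fun n => Real.sqrt ‖EZ z r n‖)
      (fun n => ‖EZ z r n‖ * Real.sqrt ‖EZ z r n‖)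
    have e1 : ∀ n, Real.sqrt ‖EZ z r n‖ * (‖EZ z r n‖ * Real.sqrt ‖EZ z r n‖) = ‖EZ z r n‖ ^ 2 := by
      intro n
      have := Real.mul_self_sqrt (norm_nonneg (EZ z r n))
      calc Real.sqrt ‖EZ z r n‖ * (‖EZ z r n‖ * Real.sqrt ‖EZ z r n‖) =
          ‖EZ z r n‖ * (Real.sqrt ‖EZ z r n‖ * Real.sqrt ‖EZ z r n‖) := by ring
        _ = _ := by rw [this, sq]
    have e2 : ∀ n, Real.sqrt ‖EZ z r n‖ ^ 2 = ‖EZ z r n‖ := fun n => Real.sq_sqrt (norm_nonneg _)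
    have e3 : ∀ n, (‖EZ z r n‖ * Real.sqrt ‖EZ z r n‖) ^ 2 = ‖EZ z r n‖ ^ 3 := by
      intro n
      rw [mul_pow, e2]
      ring
    simp only [e1, e2, e3] at h2
    exact h2
  have h2 : ∑ n ∈ Icc 1 N, ‖EZ z r n‖ ≤ N / L ^ (2 * V + 14) := by
    simp only [norm_EZ]
    exact hsum
  have h3 : ∑ n ∈ Icc 1 N, ‖EZ z r n‖ ^ 3 ≤ 27 * L ^ 3 * (N * (2 * L) ^ 8) := by
    calc ∑ n ∈ Icc 1 N, ‖EZ z r n‖ ^ 3 ≤ ∑ n ∈ Icc 1 N, 27 * L ^ 3 * (n.divisors.card : ℝ) ^ 3 := by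
          refine sum_le_sum fun n hn => ?_
          calc ‖EZ z r n‖ ^ 3 ≤ (3 * L * (n.divisors.card : ℝ)) ^ 3 :=
                pow_le_pow_left₀ (norm_nonneg _) (hb n hn) 3
            _ = _ := by ring
      _ = 27 * L ^ 3 * ∑ n ∈ Icc 1 N, (n.divisors.card : ℝ) ^ 3 := by rw [mul_sum]
      _ ≤ 27 * L ^ 3 * (N * (2 * L) ^ 8) := by
          apply mul_le_mul_of_nonneg_left _ (by positivity)
          have h4 := Pool.Agent.TH935.LD.tau_pow_sum 3 N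
          refine h4.trans ?_
          rw [← hLd]
          norm_num
          apply mul_le_mul_of_nonneg_left _ hN0.le
          apply pow_le_pow_left₀ (by linarith)
          linarith
  have h4 : (∑ n ∈ Icc 1 N, ‖EZ z r n‖ ^ 2) ^ 2 ≤ ((N : ℝ) / L ^ V) ^ 2 := by
    refine h1.trans ?_
    calc (∑ n ∈ Icc 1 N, ‖EZ z r n‖) * ∑ n ∈ Icc 1 N, ‖EZ z r n‖ ^ 3 ≤
          (N / L ^ (2 * V + 14)) * (27 * L ^ 3 * (N * (2 * L) ^ 8)) := by
          apply mul_le_mul h2 h3 (sum_nonneg fun _ _ => by positivity) (by positivity)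
      _ = ((N : ℝ) / L ^ V) ^ 2 * (6912 / L ^ 3) := by
          have : L ^ (2 * V + 14) = (L ^ V) ^ 2 * L ^ 14 := by rw [← pow_mul]; ring
          rw [this]
          field_simp
          ring
      _ ≤ ((N : ℝ) / L ^ V) ^ 2 * 1 := by
          apply mul_le_mul_of_nonneg_left _ (by positivity)
          rw [div_le_one (by positivity)]
          calc (6912 : ℝ) ≤ 200 ^ 3 := by norm_num
            _ ≤ L ^ 3 := pow_le_pow_left₀ (by norm_num) hL 3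
      _ = _ := mul_one _
  exact (pow_le_pow_iff_left₀ (sum_nonneg fun _ _ => sq_nonneg _) (by positivity) two_ne_zero).1 h4

lemma maj_DZ (hL2 : L2Stm) {N A C C₃ z r : ℕ} {ρ : ℝ} (hρ : 0 ≤ ρ) (hL : 2 ≤ Real.log N) (hN : 1 ≤ N)
    (hG : MajAt N ρ (A + 2) C C₃ (FF z r))
    (hE : ∑ n ∈ Icc 1 N, ‖EZ z r n‖ ^ 2 ≤ N / Real.log N ^ (A + 3)) :
    MajAt N ρ A C C₃ (DZ z) := by
  intro q _ hq
  obtain ⟨B, hB1, hBc, hB⟩ := hG q hq
  refine ⟨B, hB1, hBc, fun η hη y hy S hS => ?_⟩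
  have h1 := hB η hη y hy S hS
  have hL0 : 0 < Real.log N := by linarith
  have hN0 : (0 : ℝ) < N := by exact_mod_cast hN
  have hNr1 : (1 : ℝ) ≤ N := by exact_mod_cast hN
  have hqN : (q : ℝ) ≤ N := by
    refine hq.trans ?_
    calc (N : ℝ) ^ (7 / 10 - ρ) ≤ (N : ℝ) ^ (1 : ℝ) :=
          Real.rpow_le_rpow_of_exponent_le hNr1 (by linarith)
      _ = N := Real.rpow_one _
  have h2 : ∑ χ ∈ S, ‖cs q y (EZ z r) η χ‖ ^ 2 ≤ (N : ℝ) ^ 2 / Real.log N ^ (A + 2) := by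
    have e1 : ∑ χ ∈ S, ‖cs q y (EZ z r) η χ‖ ^ 2 ≤ ∑ χ : DirichletCharacter ℂ q, ‖cs q y (EZ z r) η χ‖ ^ 2 :=
      sum_le_sum_of_subset_of_nonneg (subset_univ _) fun _ _ _ => sq_nonneg _
    have e2 := (hL2 q y (fun n => EZ z r n * ee (n * η))).1
    have e3 : ∀ χ : DirichletCharacter ℂ q, cs q y (EZ z r) η χ =
        ∑ n ∈ Icc 1 y, EZ z r n * ee (n * η) * χ (n : ZMod q) := by
      intro χ
      unfold cs
      exact sum_congr rfl fun n _ => by ring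
    rw [sum_congr rfl fun χ _ => by rw [← e3 χ]] at e2
    refine e1.trans (e2.trans ?_)
    simp only [norm_mul, norm_ee, mul_one]
    have e4 : ∑ n ∈ Icc 1 y, ‖EZ z r n‖ ^ 2 ≤ N / Real.log N ^ (A + 3) :=
      (sum_le_sum_of_subset_of_nonneg (Icc_subset_Icc le_rfl hy) fun _ _ _ => sq_nonneg _).trans hE
    have hyr : (y : ℝ) ≤ N := by exact_mod_cast hy
    calc ((y : ℝ) + q) * ∑ n ∈ Icc 1 y, ‖EZ z r n‖ ^ 2 ≤ (N + N) * (N / Real.log N ^ (A + 3)) := by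
          gcongr
      _ = (N : ℝ) ^ 2 / Real.log N ^ (A + 2) * (2 / Real.log N) := by
          rw [show A + 3 = A + 2 + 1 by ring, pow_succ (Real.log N) (A + 2)]
          field_simp
          ring
      _ ≤ (N : ℝ) ^ 2 / Real.log N ^ (A + 2) * 1 := by
          apply mul_le_mul_of_nonneg_left _ (by positivity)
          rw [div_le_one hL0]
          exact hL
      _ = _ := mul_one _
  rw [DZ_eq z r]
  exact (sq_sub_sum (FF z r) (EZ z r) η S h1 h2).trans (four_le hL)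

lemma nc_DZ {U N z r : ℕ} (hP : Par (U + 1) N z r) (hL : 2 ≤ Real.log N)
    (hsum : ∑ n ∈ Icc 1 N, |lamz z n - lsh z r n| ≤ N / Real.log N ^ (U + 1)) : NcAt N U (DZ z) := by
  intro q hq hqN
  have hL0 : 0 < Real.log N := by linarith
  have h1 := hP.hC q hq hqN
  have h2 : ∑ n ∈ (Icc 1 N).filter (fun n => ¬ n.Coprime q), |lamz z n - lsh z r n| ≤
      N / Real.log N ^ (U + 1) :=
    (sum_le_sum_of_subset_of_nonneg (filter_subset _ _) fun _ _ _ => abs_nonneg _).trans hsum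
  have h3 : ∀ n ∈ (Icc 1 N).filter (fun n => ¬ n.Coprime q), ‖DZ z n‖ ≤
      |ArithmeticFunction.vonMangoldt n - lsh z r n| + |lamz z n - lsh z r n| := by
    intro n _
    rw [norm_DZ]
    have : ArithmeticFunction.vonMangoldt n - lamz z n =
      (ArithmeticFunction.vonMangoldt n - lsh z r n) - (lamz z n - lsh z r n) := by ring
    rw [this]
    exact abs_sub _ _
  refine (sum_le_sum h3).trans ?_
  rw [sum_add_distrib]
  calc _ ≤ N / Real.log N ^ (U + 1) + N / Real.log N ^ (U + 1) := add_le_add h1 h2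
    _ = N / Real.log N ^ U * (2 / Real.log N) := by rw [pow_succ]; field_simp; ring
    _ ≤ N / Real.log N ^ U * 1 := by
        apply mul_le_mul_of_nonneg_left _ (by positivity)
        rw [div_le_one hL0]
        exact hL
    _ = _ := mul_one _

lemma ap_DZ {N K U z : ℕ} (hL : 2 ≤ Real.log N)
    (hlam : ∀ q : ℕ, 1 ≤ q → (q : ℝ) ≤ Real.log N ^ K → ∀ c y : ℕ, y ≤ N →
      |∑ n ∈ (Icc 1 y).filter (fun n => n ≡ c [MOD q]), lamz z n -
        (if c.Coprime q then (y : ℝ) / (Nat.totient q : ℝ) else 0)| ≤ N / Real.log N ^ (U + 1))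
    (hap : ∀ r : ℕ, 1 ≤ r → (r : ℝ) ≤ Real.log N ^ K → ∀ c y : ℕ, y ≤ N →
      |∑ n ∈ (Icc 1 y).filter (fun n => n ≡ c [MOD r]), ArithmeticFunction.vonMangoldt n -
        (if c.Coprime r then (y : ℝ) / (Nat.totient r : ℝ) else 0)| ≤ N / Real.log N ^ (U + 1)) :
    ApAt N K U (DZ z) := by
  intro r hr1 hrK c y hy
  have hL0 : 0 < Real.log N := by linarith
  have h1 := hlam r hr1 hrK c y hy
  have h2 := hap r hr1 hrK c y hy
  have e1 : ∑ n ∈ (Icc 1 y).filter (fun n => n ≡ c [MOD r]), DZ z n =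
      ((∑ n ∈ (Icc 1 y).filter (fun n => n ≡ c [MOD r]), (ArithmeticFunction.vonMangoldt n - lamz z n) : ℝ) : ℂ) := by
    push_cast
    refine sum_congr rfl fun n _ => ?_
    unfold DZ
    push_cast
    rfl
  rw [e1, Complex.norm_real, Real.norm_eq_abs]
  obtain ⟨M, hM⟩ : ∃ M : ℝ, M = (if c.Coprime r then (y : ℝ) / (Nat.totient r : ℝ) else 0) := ⟨_, rfl⟩
  rw [← hM] at h1 h2
  have e2 : ∑ n ∈ (Icc 1 y).filter (fun n => n ≡ c [MOD r]), (ArithmeticFunction.vonMangoldt n - lamz z n) =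
      (∑ n ∈ (Icc 1 y).filter (fun n => n ≡ c [MOD r]), ArithmeticFunction.vonMangoldt n - M) -
      (∑ n ∈ (Icc 1 y).filter (fun n => n ≡ c [MOD r]), lamz z n - M) := by
    rw [sum_sub_distrib]
    ring
  rw [e2]
  calc _ ≤ N / Real.log N ^ (U + 1) + N / Real.log N ^ (U + 1) := (abs_sub _ _).trans (add_le_add h2 h1)
    _ = N / Real.log N ^ U * (2 / Real.log N) := by rw [pow_succ]; field_simp; ring
    _ ≤ N / Real.log N ^ U * 1 := by
        apply mul_le_mul_of_nonneg_left _ (by positivity)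
        rw [div_le_one hL0]
        exact hL
    _ = _ := mul_one _

/-- ERRSQ: the error terms -/
def ErrSqStm : Prop := ∀ α : ℤ, α ≠ 0 → ∀ (A T : ℕ) (ρ : ℝ), 0 < ρ → ∃ B : ℕ, ∀ E : ℕ, ∃ N₀ : ℕ,
  ∀ N : ℕ, N₀ ≤ N → ∀ z : ℕ, Real.log N ^ B ≤ z → (z : ℝ) ≤ Real.log N ^ E → (Vz z)⁻¹ ≤ Real.log N ∧
  ∀ (q : ℕ) [NeZero q], (q : ℝ) ≤ (N : ℝ) ^ (1 / 2 - ρ) → (q.divisors.card : ℝ) ≤ Real.log N ^ T →
  ∀ a : ZMod q, (Nat.gcd a.val q : ℝ) ≤ Real.log N ^ T → ∀ y : ℕ, y ^ 2 ≤ N →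
    ∑ n ∈ cls ((α.natAbs + 1) * N) q a, ‖cvs α (DZ z) y N n‖ ^ 2 ≤ (N : ℝ) ^ 2 / (q * Real.log N ^ A)

theorem err_Sq (hCore : CoreSqStm) (hL2 : L2Stm) (hB3 : BilMaj3Stm) (hTM : TiMaj2Stm)
    (hLsh : LshStm) (hModel : ModelStm) : ErrSqStm := by
  intro α hα A T ρ hρ
  obtain ⟨C, A₂, hC1⟩ := hCore α hα A T ρ hρ
  obtain ⟨C₃, Nm1, hm1⟩ := mLA hL2 hB3 (A₂ + 2 + 2) C (ρ := 1 / 15) (by norm_num)
  obtain ⟨Nm2, hm2⟩ := mHU hTM hLsh (A₂ + 2 + 2) C (ρ := 1 / 10) (by norm_num)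
  obtain ⟨K, U, Nc, hC2⟩ := hC1 C₃
  obtain ⟨U₁, hU₁⟩ : ∃ U₁, U₁ = (U + 1) + (2 * (A₂ + 3) + 14) := ⟨_, rfl⟩
  obtain ⟨Bm, hBm⟩ := hModel U₁
  refine ⟨max Bm K, fun E => ?_⟩
  obtain ⟨Nmo, hmo⟩ := hBm E
  obtain ⟨Nl, hl⟩ := lamz_ap E (U + 1)
  obtain ⟨Na, ha⟩ := lam_ap K (U + 1)
  obtain ⟨Ne, hNe⟩ := Filter.eventually_atTop.1 (ev_log 1 (s := 1) (by norm_num) 200)
  refine ⟨Nm1 + Nm2 + Nc + Nmo + Nl + Na + Ne + 1, fun N hN z hz1 hz2 => ?_⟩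
  have hN1 : 1 ≤ N := by omega
  obtain ⟨hLe, -⟩ := hNe N (by omega)
  have hL1 : 1 ≤ Real.log N := by linarith
  have hL2' : 2 ≤ Real.log N := by linarith
  have hzB : Real.log N ^ Bm ≤ z := (pow_le_pow_right₀ hL1 (le_max_left _ _)).trans hz1
  have hzK : Real.log N ^ K ≤ z := (pow_le_pow_right₀ hL1 (le_max_right _ _)).trans hz1
  have hz1' : 1 ≤ z := by
    have : (1 : ℝ) ≤ z := (one_le_pow₀ hL1).trans hz1
    exact_mod_cast this
  obtain ⟨r, hPar, hsum⟩ := hmo N (by omega) z hzB hz2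
  have hdiv : ∀ V : ℕ, V ≤ U₁ → (N : ℝ) / Real.log N ^ U₁ ≤ N / Real.log N ^ V := fun V hV =>
    div_le_div_of_nonneg_left (Nat.cast_nonneg _) (by positivity) (pow_le_pow_right₀ hL1 hV)
  refine ⟨hPar.hV, ?_⟩
  intro q _ hq hτ a hgcd y hy
  have hMajF : MajAt N (1 / 10) (A₂ + 2) C C₃ (FF z r) := by
    have h1 := hm1 N (by omega)
    rw [show (1 / 30 + 1 / 15 : ℝ) = 1 / 10 by norm_num] at h1
    exact maj_FF hL2' h1 (fun q _ hq => hm2 N (by omega) q hq z r hPar.hD hPar.hV)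
  have hE : ∑ n ∈ Icc 1 N, ‖EZ z r n‖ ^ 2 ≤ N / Real.log N ^ (A₂ + 3) :=
    EZ_sq (par_mono hL1 (Nat.zero_le _) hPar) hLe hN1 (hsum.trans (hdiv _ (by omega)))
  have hMaj := maj_DZ hL2 (by norm_num) hL2' hN1 hMajF hE
  have hAp : ApAt N K U (DZ z) := by
    refine ap_DZ hL2' ?_ (ha N (by omega))
    intro q hq hqK c y hy
    refine hl N (by omega) z hz1' hz2 q hq ?_ c y hy
    exact_mod_cast hqK.trans hzK
  have hNc : NcAt N U (DZ z) := nc_DZ (par_mono hL1 (by omega) hPar) hL2' (hsum.trans (hdiv _ (by omega)))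
  exact hC2 N (by omega) (DZ z) (fun n hn => bd_DZ hPar.hV hL1 hn) hMaj hAp hNc q hq hτ a hgcd y hy

theorem errSq_all : ErrSqStm :=
  err_Sq (coreSq Pool.Agent.Y297.GJ.orth Pool.Agent.Y812.GJ.nonU) Pool.Agent.Y812.GJ.l2
    (bilMaj3 Pool.Agent.Y812.GJ.l2 (countK Pool.Agent.Y812.GJ.l2)) (tiMaj2 Pool.Agent.Y812.GJ.l2)
    Pool.Agent.Y812.GJ.lsh_le Pool.Agent.Y883.GJ.model_all

end Pool.Agent.R460.SQ
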