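import Pool.Agent.R460.SQ.Model
import Pool.Agent.H373R2.T7.SysCount

set_option autoImplicit false

/-! The main term. -/

namespace Pool.Agent.R460.SQ

open Finset
open Pool.Agent.H373R2.T7 (lamz Vz pz Vz_pos nuB PerB nuB_le sys_count mem_pz)
open Pool.Agent.Y614.GJ.Core (ev_log)

/-- the classes -/
def QS (α n : ℤ) (p m : ℕ) : Prop := (p : ℤ) ∣ n - α * (m : ℤ) ^ 2

lemma QS_per (α n : ℤ) (p m : ℕ) : QS α n p m ↔ QS α n p (m % p) := by
  unfold QS
  apply Int.dvd_iff_dvd_of_dvd_sub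
  have h1 : (p : ℤ) ∣ ((m % p : ℕ) : ℤ) - (m : ℤ) := by
    have := (Nat.mod_modEq m p).symm
    exact (Nat.modEq_iff_dvd.1 this)
  obtain ⟨c, hc⟩ := h1
  refine ⟨α * c * (((m % p : ℕ) : ℤ) + m), ?_⟩
  linear_combination α * (((m % p : ℕ) : ℤ) + m) * hc

lemma QS_few {α : ℤ} (hα : α ≠ 0) (n : ℤ) (p : ℕ) (hp : p.Prime) : nuB (QS α n) p ≤ α.natAbs + 2 := by
  classical
  by_cases hpa : (p : ℤ) ∣ α
  · have h1 : p ≤ α.natAbs := by
      apply Nat.le_of_dvd (Int.natAbs_pos.2 hα)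
      have := Int.natAbs_dvd_natAbs.2 hpa
      rwa [Int.natAbs_natCast] at this
    have := nuB_le (QS α n) p
    omega
  · have h2 : nuB (QS α n) p ≤ 2 := by
      unfold nuB
      rcases ((range p).filter (fun r => QS α n p r)).eq_empty_or_nonempty with he | ⟨m₀, hm₀⟩
      · have : ((range p).filter (fun r => QS α n p r)).card = 0 := by rw [he, card_empty]
        convert (this.le.trans (by norm_num : 0 ≤ 2)) using 1
      · rw [mem_filter, mem_range] at hm₀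
        have hsub : (range p).filter (fun r => QS α n p r) ⊆ {m₀, p - m₀} := by
          intro m hm
          rw [mem_filter, mem_range] at hm
          rw [mem_insert, mem_singleton]
          have h3 : (p : ℤ) ∣ α * (((m : ℤ) - m₀) * ((m : ℤ) + m₀)) := by
            have h4 := dvd_sub hm₀.2 hm.2
            have e : (n - α * (m₀ : ℤ) ^ 2) - (n - α * (m : ℤ) ^ 2) = α * (((m : ℤ) - m₀) * ((m : ℤ) + m₀)) := by
              ring
            rwa [e] at h4
          have hpz : Prime (p : ℤ) := Nat.prime_iff_prime_int.1 hp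
          rcases hpz.dvd_or_dvd h3 with h4 | h4
          · exact absurd h4 hpa
          rcases hpz.dvd_or_dvd h4 with h5 | h5
          · left
            obtain ⟨c, hc⟩ := h5
            have h6 : c = 0 := by
              have a1 : (m : ℤ) < p := by exact_mod_cast hm.1
              have a2 : (m₀ : ℤ) < p := by exact_mod_cast hm₀.1
              by_contra h0
              rcases lt_or_gt_of_ne h0 with h | h
              · nlinarith
              · nlinarith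
            rw [h6, mul_zero] at hc
            omega
          · have h6 : p ∣ m + m₀ := by exact_mod_cast h5
            obtain ⟨c, hc⟩ := h6
            have hc2 : c < 2 := by
              by_contra h0
              push Not at h0
              have : p * 2 ≤ p * c := Nat.mul_le_mul_left p h0
              omega
            interval_cases c
            · left
              omega
            · right
              omega
        have h4 : ((range p).filter (fun r => QS α n p r)).card ≤ 2 := (card_le_card hsub).trans card_le_two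
        convert h4 using 1
    omega

lemma QS_perB {α : ℤ} (hα : α ≠ 0) (n : ℤ) : PerB (QS α n) (α.natAbs + 2) :=
  ⟨fun p m => QS_per α n p m, fun p hp => QS_few hα n p hp⟩

/-- the truncated singular series -/
noncomputable def Sz (α n : ℤ) (z : ℕ) : ℝ := (Vz z)⁻¹ * ∏ p ∈ pz z, (1 - (nuB (QS α n) p : ℝ) / p)

lemma prod_bd (α n : ℤ) (z : ℕ) : 0 ≤ ∏ p ∈ pz z, (1 - (nuB (QS α n) p : ℝ) / p) ∧
    ∏ p ∈ pz z, (1 - (nuB (QS α n) p : ℝ) / p) ≤ 1 := by
  have h : ∀ p ∈ pz z, 0 ≤ 1 - (nuB (QS α n) p : ℝ) / p ∧ 1 - (nuB (QS α n) p : ℝ) / p ≤ 1 := by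
    intro p hp
    have hp0 : (0 : ℝ) < p := by exact_mod_cast (mem_pz.1 hp).2.pos
    have h1 : (nuB (QS α n) p : ℝ) / p ≤ 1 := by
      rw [div_le_one hp0]
      exact_mod_cast nuB_le _ _
    have h2 : 0 ≤ (nuB (QS α n) p : ℝ) / p := by positivity
    constructor <;> linarith
  exact ⟨prod_nonneg fun p hp => (h p hp).1, prod_le_one (fun p hp => (h p hp).1) fun p hp => (h p hp).2⟩

lemma Sz_bd (α n : ℤ) (z : ℕ) : 0 ≤ Sz α n z ∧ Sz α n z ≤ (Vz z)⁻¹ := by
  obtain ⟨h1, h2⟩ := prod_bd α n z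
  have hV := inv_pos.2 (Vz_pos z)
  unfold Sz
  constructor
  · positivity
  · calc (Vz z)⁻¹ * ∏ p ∈ pz z, (1 - (nuB (QS α n) p : ℝ) / p) ≤ (Vz z)⁻¹ * 1 := by gcongr
      _ = _ := mul_one _

open Classical in
theorem det_sq {α : ℤ} (hα : α ≠ 0) (C E : ℕ) : ∃ X₀ : ℕ, ∀ X : ℕ, X₀ ≤ X → ∀ z : ℕ, 1 ≤ z →
    (z : ℝ) ≤ Real.log X ^ E → (Vz z)⁻¹ ≤ Real.log X → ∀ (n : ℤ) (y : ℕ), y ^ 2 ≤ X →
    |(Vz z)⁻¹ * (((Icc 1 y).filter (fun m : ℕ => ∀ p ∈ pz z, ¬ QS α n p m)).card : ℝ) - Sz α n z * y| ≤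
      Real.sqrt X / Real.log X ^ C := by
  obtain ⟨U, hU⟩ : ∃ U, U = C + 2 := ⟨_, rfl⟩
  obtain ⟨N0, h0⟩ := sys_count (α.natAbs + 2) (E + 1) U (by omega)
  obtain ⟨X1, h1⟩ := Filter.eventually_atTop.1 (ev_log (4 * C + 4) (s := 1) (by norm_num) (4 ^ U + 4 * 4 ^ E + 4))
  refine ⟨N0 ^ 4 + X1 + 1, fun X hX z hz hzE hV n y hy => ?_⟩
  obtain ⟨hLb, hLp⟩ := h1 X (by omega)
  have hX1 : 1 ≤ X := by omega
  have hX0 : (0 : ℝ) < X := by exact_mod_cast hX1
  obtain ⟨L, hL⟩ : ∃ L, L = Real.log (X : ℝ) := ⟨_, rfl⟩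
  rw [← hL] at hLb hLp hzE hV ⊢
  rw [Real.rpow_one] at hLp
  have h4U : (0 : ℝ) < 4 ^ U := by positivity
  have h4E : (0 : ℝ) < 4 ^ E := by positivity
  have hL4 : 4 ≤ L := by linarith
  have hL0 : 0 < L := by linarith
  have hL1 : 1 ≤ L := by linarith
  obtain ⟨M, hM⟩ : ∃ M, M = Real.sqrt X := ⟨_, rfl⟩
  have hM0 : 0 < M := by rw [hM]; exact Real.sqrt_pos.2 hX0
  have hMM : M ^ 2 = X := by rw [hM]; exact Real.sq_sqrt hX0.le
  rw [← hM]
  have hyM : (y : ℝ) ≤ M := by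
    rw [hM]
    apply Real.le_sqrt_of_sq_le
    exact_mod_cast hy
  have hy0 : (0 : ℝ) ≤ y := Nat.cast_nonneg _
  have hVp := inv_pos.2 (Vz_pos z)
  obtain ⟨c, hc⟩ : ∃ c : ℝ, c = (((Icc 1 y).filter (fun m : ℕ => ∀ p ∈ pz z, ¬ QS α n p m)).card : ℝ) := ⟨_, rfl⟩
  rw [← hc]
  rcases le_or_gt X (y ^ 4) with hy4 | hy4
  · -- long sums
    have hyN : N0 ≤ y := by
      by_contra hlt
      push Not at hlt
      have : y ^ 4 < N0 ^ 4 := Nat.pow_lt_pow_left hlt (by norm_num)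
      omega
    have hy1 : 1 ≤ y := by
      rcases Nat.eq_zero_or_pos y with h | h
      · subst h
        simp at hy4
        omega
      · exact h
    have hyr : (0 : ℝ) < y := by exact_mod_cast hy1
    have hlogy : L ≤ 4 * Real.log y := by
      have h5 : Real.log X ≤ Real.log ((y : ℝ) ^ 4) := Real.log_le_log hX0 (by exact_mod_cast hy4)
      rw [Real.log_pow] at h5
      rw [hL]
      exact_mod_cast h5
    have hly0 : 0 < Real.log y := by linarith
    have hly : 4 ^ E ≤ Real.log y := by linarith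
    have hzy : (z : ℝ) ≤ Real.log y ^ (E + 1) := by
      calc (z : ℝ) ≤ L ^ E := hzE
        _ ≤ (4 * Real.log y) ^ E := pow_le_pow_left₀ hL0.le hlogy _
        _ = 4 ^ E * Real.log y ^ E := mul_pow _ _ _
        _ ≤ Real.log y * Real.log y ^ E := by gcongr
        _ = _ := by ring
    have k := h0 y hyN z hz hzy (QS α n) (QS_perB hα n)
    have k' : |c - y * ∏ p ∈ pz z, (1 - (nuB (QS α n) p : ℝ) / p)| ≤ y / Real.log y ^ U := by
      rw [hc]
      convert k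
    have e1 : (Vz z)⁻¹ * c - Sz α n z * y = (Vz z)⁻¹ * (c - y * ∏ p ∈ pz z, (1 - (nuB (QS α n) p : ℝ) / p)) := by
      unfold Sz
      ring
    rw [e1, abs_mul, abs_of_pos hVp]
    calc (Vz z)⁻¹ * |c - y * ∏ p ∈ pz z, (1 - (nuB (QS α n) p : ℝ) / p)| ≤ L * (y / Real.log y ^ U) := by gcongr
      _ ≤ L * (M / (L / 4) ^ U) := by
          gcongr
          linarith
      _ = M / L ^ C * (4 ^ U / L) := by
          rw [div_pow, hU, pow_add L C 2]
          field_simp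
      _ ≤ M / L ^ C * 1 := by
          apply mul_le_mul_of_nonneg_left _ (by positivity)
          rw [div_le_one hL0]
          linarith
      _ = _ := mul_one _
  · -- short sums
    have hc0 : 0 ≤ c := by rw [hc]; positivity
    have hcy : c ≤ y := by
      rw [hc]
      have : ((Icc 1 y).filter (fun m : ℕ => ∀ p ∈ pz z, ¬ QS α n p m)).card ≤ y := by
        refine (card_filter_le _ _).trans ?_
        rw [Nat.card_Icc, Nat.add_sub_cancel]
      exact_mod_cast this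
    obtain ⟨s1, s2⟩ := Sz_bd α n z
    have h5 : |(Vz z)⁻¹ * c - Sz α n z * y| ≤ L * y := by
      have a1 : (Vz z)⁻¹ * c ≤ L * y := by gcongr
      have a2 : Sz α n z * y ≤ L * y := by
        apply mul_le_mul_of_nonneg_right (s2.trans hV) hy0
      have a3 : 0 ≤ (Vz z)⁻¹ * c := by positivity
      have a4 : 0 ≤ Sz α n z * y := by positivity
      rw [abs_le]
      constructor <;> linarith
    refine h5.trans ?_
    rw [le_div_iff₀ (by positivity)]
    have h6 : (L * y * L ^ C) ^ 4 ≤ M ^ 4 := by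
      calc (L * y * L ^ C) ^ 4 = L ^ (4 * C + 4) * (y : ℝ) ^ 4 := by ring
        _ ≤ (X : ℝ) * X := by
            have : (y : ℝ) ^ 4 ≤ X := by exact_mod_cast hy4.le
            gcongr
        _ = M ^ 4 := by rw [← hMM]; ring
    exact (pow_le_pow_iff_left₀ (by positivity) hM0.le (by norm_num)).1 h6

/-- the correlation as a sum over `m` -/
lemma cvs_eq {α : ℤ} {G : ℕ → ℂ} {y N : ℕ} {n : ℤ}
    (h : ∀ m ∈ Icc 1 y, 1 ≤ n - α * (m : ℤ) ^ 2 ∧ n - α * (m : ℤ) ^ 2 ≤ N) :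
    cvs α G y N n = ∑ m ∈ Icc 1 y, G (n - α * (m : ℤ) ^ 2).toNat := by
  unfold cvs
  refine sum_congr rfl fun m hm => ?_
  obtain ⟨h1, h2⟩ := h m hm
  have h3 : (((n - α * (m : ℤ) ^ 2).toNat : ℕ) : ℤ) = n - α * (m : ℤ) ^ 2 := Int.toNat_of_nonneg (by omega)
  rw [sum_eq_single (n - α * (m : ℤ) ^ 2).toNat]
  · rw [if_pos (by rw [h3]; ring)]
  · intro l _ hl
    rw [if_neg]
    intro h4
    apply hl
    have : (l : ℤ) = n - α * (m : ℤ) ^ 2 := by linarith
    omega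
  · intro h4
    exfalso
    apply h4
    rw [mem_Icc]
    omega

open Classical in
lemma lamz_sum {α : ℤ} {y z : ℕ} {n : ℤ} (h : ∀ m ∈ Icc 1 y, 1 ≤ n - α * (m : ℤ) ^ 2) :
    ∑ m ∈ Icc 1 y, lamz z (n - α * (m : ℤ) ^ 2).toNat =
      (Vz z)⁻¹ * (((Icc 1 y).filter (fun m : ℕ => ∀ p ∈ pz z, ¬ QS α n p m)).card : ℝ) := by
  rw [card_eq_sum_ones, Nat.cast_sum, sum_filter, mul_sum]
  refine sum_congr rfl fun m hm => ?_
  have h1 := h m hm
  have h3 : (((n - α * (m : ℤ) ^ 2).toNat : ℕ) : ℤ) = n - α * (m : ℤ) ^ 2 := Int.toNat_of_nonneg (by omega)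
  unfold lamz QS
  have h4 : (∀ p ∈ pz z, ¬ p ∣ (n - α * (m : ℤ) ^ 2).toNat) ↔ ∀ p ∈ pz z, ¬ (p : ℤ) ∣ n - α * (m : ℤ) ^ 2 := by
    constructor
    · intro h5 p hp hd
      apply h5 p hp
      rw [← h3] at hd
      exact_mod_cast hd
    · intro h5 p hp hd
      apply h5 p hp
      rw [← h3]
      exact_mod_cast hd
  by_cases h5 : ∀ p ∈ pz z, ¬ (p : ℤ) ∣ n - α * (m : ℤ) ^ 2
  · rw [if_pos (h4.2 h5), if_pos h5]
    push_cast
    ring
  · rw [if_neg (fun hh => h5 (h4.1 hh)), if_neg h5]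
    simp

/-- the sum of the von Mangoldt function in terms of the correlation -/
lemma near_sq {α : ℤ} (hα : α ≠ 0) (C E : ℕ) : ∃ X₀ : ℕ, ∀ X : ℕ, X₀ ≤ X → ∀ z : ℕ, 1 ≤ z →
    (z : ℝ) ≤ Real.log X ^ E → (Vz z)⁻¹ ≤ Real.log X → ∀ (n : ℤ) (y N : ℕ), y ^ 2 ≤ X →
    (∀ m ∈ Icc 1 y, 1 ≤ n - α * (m : ℤ) ^ 2 ∧ n - α * (m : ℤ) ^ 2 ≤ N) →
    |∑ m ∈ Icc 1 y, ArithmeticFunction.vonMangoldt (n - α * (m : ℤ) ^ 2).toNat - Sz α n z * y| ≤
      ‖cvs α (DZ z) y N n‖ + Real.sqrt X / Real.log X ^ C := by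
  classical
  obtain ⟨X₀, h0⟩ := det_sq hα C E
  refine ⟨X₀, fun X hX z hz hzE hV n y N hy h => ?_⟩
  have h1 := h0 X hX z hz hzE hV n y hy
  rw [← lamz_sum (fun m hm => (h m hm).1)] at h1
  have h2 : ‖cvs α (DZ z) y N n‖ = |∑ m ∈ Icc 1 y, (ArithmeticFunction.vonMangoldt (n - α * (m : ℤ) ^ 2).toNat -
      lamz z (n - α * (m : ℤ) ^ 2).toNat)| := by
    rw [cvs_eq h]
    unfold DZ
    rw [← Complex.ofReal_sum, Complex.norm_real, Real.norm_eq_abs]
  rw [h2, sum_sub_distrib]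
  have e : ∑ m ∈ Icc 1 y, ArithmeticFunction.vonMangoldt (n - α * (m : ℤ) ^ 2).toNat - Sz α n z * y =
      (∑ m ∈ Icc 1 y, ArithmeticFunction.vonMangoldt (n - α * (m : ℤ) ^ 2).toNat -
        ∑ m ∈ Icc 1 y, lamz z (n - α * (m : ℤ) ^ 2).toNat) +
      (∑ m ∈ Icc 1 y, lamz z (n - α * (m : ℤ) ^ 2).toNat - Sz α n z * y) := by ring
  rw [e]
  exact (abs_add_le _ _).trans (add_le_add le_rfl h1)

end Pool.Agent.R460.SQ
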