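import Pool.Agent.R460.SQ.Det
import Pool.Agent.R460.GS.Conv

set_option autoImplicit false

/-! The number of the exceptional integers in a residue class. -/

namespace Pool.Agent.R460.SQ

open Finset
open Pool.Agent.H373R2.T7 (lamz Vz pz Vz_pos Vz_inv_small)
open Pool.Agent.R460.GS (gcd_toNat)
open Pool.Agent.Y614.GJ.Core (ev_log)

/-- the logarithm on the primes -/
noncomputable def thp (l : ℕ) : ℝ := if l.Prime then Real.log l else 0

/-- the von Mangoldt function outside the primes -/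
noncomputable def ppw (l : ℕ) : ℝ := if l.Prime then 0 else ArithmeticFunction.vonMangoldt l

lemma vm_split (l : ℕ) : ArithmeticFunction.vonMangoldt l = thp l + ppw l := by
  unfold thp ppw
  split_ifs with h
  · rw [ArithmeticFunction.vonMangoldt_apply_prime h, add_zero]
  · rw [zero_add]

lemma ppw_nn (l : ℕ) : 0 ≤ ppw l := by
  unfold ppw
  split_ifs
  · exact le_rfl
  · exact ArithmeticFunction.vonMangoldt_nonneg

lemma sum_ppw {N : ℕ} (hN : 1 ≤ N) : ∑ l ∈ Icc 1 N, ppw l ≤ 2 * Real.sqrt N * Real.log N := by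
  have h1 := Chebyshev.psi_sub_theta_le (x := (N : ℝ)) (by exact_mod_cast hN)
  rw [Chebyshev.psi_sub_theta_eq_sum_not_prime, Nat.floor_natCast, sum_filter] at h1
  refine le_trans (le_of_eq ?_) h1
  refine sum_congr ?_ fun l _ => ?_
  · ext b
    rw [mem_Icc, mem_Ioc]
    omega
  · unfold ppw
    by_cases h : l.Prime
    · rw [if_pos h, if_neg (not_not.2 h)]
    · rw [if_neg h, if_pos h]

/-- the property of the integer `n` -/
def GoodSq (α : ℤ) (C X z : ℕ) (n : ℤ) : Prop :=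
  ∀ y : ℕ, y ^ 2 ≤ X → (∀ m ∈ Icc 1 y, 1 ≤ n - α * (m : ℤ) ^ 2) →
    |∑ m ∈ Icc 1 y, thp (n - α * (m : ℤ) ^ 2).toNat - Sz α n z * y| ≤ Real.sqrt X / Real.log X ^ C

lemma val_le {α n : ℤ} {X N y m : ℕ} (hN : (α.natAbs + 1) * X ≤ N) (hn : |n| ≤ X) (hy : y ^ 2 ≤ X) (hm : m ∈ Icc 1 y) :
    n - α * (m : ℤ) ^ 2 ≤ N := by
  rw [mem_Icc] at hm
  have h3 : (m : ℤ) ^ 2 ≤ X := by
    have : m ^ 2 ≤ X := (Nat.pow_le_pow_left hm.2 2).trans hy
    exact_mod_cast this
  have h5 : |α * (m : ℤ) ^ 2| ≤ |α| * X := by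
    rw [abs_mul, abs_of_nonneg (sq_nonneg (m : ℤ))]
    exact mul_le_mul_of_nonneg_left h3 (abs_nonneg _)
  have h6 : |α| * (X : ℤ) + X ≤ N := by
    have : ((((α.natAbs + 1) * X : ℕ)) : ℤ) ≤ N := by exact_mod_cast hN
    push_cast at this
    linarith
  have h7 := abs_le.1 h5
  have h8 := abs_le.1 hn
  linarith [h7.1, h8.2]

lemma pp_count {α : ℤ} {X N Y : ℕ} (hN1 : 1 ≤ N) (hN : (α.natAbs + 1) * X ≤ N) (H : Finset ℤ) (hH : ∀ n ∈ H, |n| ≤ X)
    (hY : Y ^ 2 ≤ X) {t : ℝ}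
    (hbig : ∀ n ∈ H, t ≤ ∑ m ∈ Icc 1 Y, if 1 ≤ n - α * (m : ℤ) ^ 2 then ppw (n - α * (m : ℤ) ^ 2).toNat else 0) :
    (H.card : ℝ) * t ≤ Y * (2 * Real.sqrt N * Real.log N) := by
  calc (H.card : ℝ) * t = ∑ _n ∈ H, t := by rw [sum_const, nsmul_eq_mul]
    _ ≤ ∑ n ∈ H, ∑ m ∈ Icc 1 Y, (if 1 ≤ n - α * (m : ℤ) ^ 2 then ppw (n - α * (m : ℤ) ^ 2).toNat else 0) :=
        sum_le_sum hbig
    _ = ∑ m ∈ Icc 1 Y, ∑ n ∈ H, (if 1 ≤ n - α * (m : ℤ) ^ 2 then ppw (n - α * (m : ℤ) ^ 2).toNat else 0) := sum_comm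
    _ ≤ ∑ _m ∈ Icc 1 Y, (2 * Real.sqrt N * Real.log N) := by
        refine sum_le_sum fun m hm => le_trans ?_ (sum_ppw hN1)
        rw [← sum_filter, ← sum_image (f := ppw) (g := fun n : ℤ => (n - α * (m : ℤ) ^ 2).toNat)]
        · apply sum_le_sum_of_subset_of_nonneg
          · intro l hl
            rw [mem_image] at hl
            obtain ⟨n, hn, rfl⟩ := hl
            rw [mem_filter] at hn
            have h1 := val_le hN (hH n hn.1) hY hm
            rw [mem_Icc]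
            omega
          · intro l _ _
            exact ppw_nn l
        · intro a ha b hb hab
          rw [mem_coe, mem_filter] at ha hb
          simp only at hab
          omega
    _ = _ := by rw [sum_const, Nat.card_Icc, nsmul_eq_mul, Nat.add_sub_cancel]

lemma cvs_count {α : ℤ} {N Y Tg s q z : ℕ} (a : ZMod q) (H : Finset ℤ) {R t : ℝ}
    (hH : H ⊆ cls ((α.natAbs + 1) * N) q a)
    (hms : ∀ y : ℕ, y ^ 2 ≤ N → ∑ n ∈ cls ((α.natAbs + 1) * N) q a, ‖cvs α (DZ z) y N n‖ ^ 2 ≤ R)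
    (hY : Y ^ 2 ≤ N)
    (hbig : ∀ n ∈ H, ∃ i ∈ range (Tg + 1), t ≤ ‖cvs α (DZ z) (min (i * s) Y) N n‖) (ht : 0 < t) :
    (H.card : ℝ) ≤ (Tg + 1) * R / t ^ 2 := by
  rw [le_div_iff₀ (by positivity)]
  obtain ⟨V, hV⟩ : ∃ V : ℕ → ℤ → ℝ, V = fun i n => ‖cvs α (DZ z) (min (i * s) Y) N n‖ ^ 2 := ⟨_, rfl⟩
  have hV0 : ∀ i n, 0 ≤ V i n := fun i n => by rw [hV]; positivity
  have h1 : ∀ n ∈ H, t ^ 2 ≤ ∑ i ∈ range (Tg + 1), V i n := by
    intro n hn
    obtain ⟨i, hi, h2⟩ := hbig n hn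
    have h3 : V i n ≤ ∑ i ∈ range (Tg + 1), V i n :=
      single_le_sum (f := fun i => V i n) (fun i _ => hV0 i _) hi
    refine le_trans ?_ h3
    rw [hV]
    exact pow_le_pow_left₀ ht.le h2 2
  have h2 : ∀ i, ∑ n ∈ H, V i n ≤ R := by
    intro i
    have h3 := hms (min (i * s) Y) ((Nat.pow_le_pow_left (min_le_right _ _) 2).trans hY)
    refine le_trans ?_ h3
    rw [hV]
    exact sum_le_sum_of_subset_of_nonneg hH fun n _ _ => sq_nonneg _
  calc (H.card : ℝ) * t ^ 2 = ∑ _n ∈ H, t ^ 2 := by rw [sum_const, nsmul_eq_mul]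
    _ ≤ ∑ n ∈ H, ∑ i ∈ range (Tg + 1), V i n := sum_le_sum h1
    _ = ∑ i ∈ range (Tg + 1), ∑ n ∈ H, V i n := sum_comm
    _ ≤ ∑ _i ∈ range (Tg + 1), R := sum_le_sum fun i _ => h2 i
    _ = (Tg + 1) * R := by rw [sum_const, card_range, nsmul_eq_mul]; push_cast; ring

/-- from one length to the grid -/
lemma grid_step {α n : ℤ} {X N y s z : ℕ} (hN : (α.natAbs + 1) * X ≤ N) (hn : |n| ≤ X) (hy : y ^ 2 ≤ X) (hs : 1 ≤ s)
    (hV : (Vz z)⁻¹ ≤ Real.log N) (hpos : ∀ m ∈ Icc 1 y, 1 ≤ n - α * (m : ℤ) ^ 2) :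
    |∑ m ∈ Icc 1 y, ArithmeticFunction.vonMangoldt (n - α * (m : ℤ) ^ 2).toNat - Sz α n z * y| ≤
      |∑ m ∈ Icc 1 (y / s * s), ArithmeticFunction.vonMangoldt (n - α * (m : ℤ) ^ 2).toNat -
        Sz α n z * (y / s * s : ℕ)| + 2 * (s * Real.log N) := by
  obtain ⟨y', hy'⟩ : ∃ y', y' = y / s * s := ⟨_, rfl⟩
  rw [← hy']
  have h1 : y' ≤ y := by rw [hy']; exact Nat.div_mul_le_self y s
  have h2 : y ≤ y' + s := by
    rw [hy']
    have := Nat.div_add_mod y s
    have h3 := Nat.mod_lt y hs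
    nlinarith
  obtain ⟨s1, s2⟩ := Sz_bd α n z
  obtain ⟨f, hf⟩ : ∃ f : ℕ → ℝ, f = fun m : ℕ => ArithmeticFunction.vonMangoldt (n - α * (m : ℤ) ^ 2).toNat :=
    ⟨_, rfl⟩
  have hfe : ∀ k : ℕ, ∑ m ∈ Icc 1 k, ArithmeticFunction.vonMangoldt (n - α * (m : ℤ) ^ 2).toNat = ∑ m ∈ Icc 1 k, f m := by
    intro k
    rw [hf]
  rw [hfe, hfe]
  have e1 : ∑ m ∈ Icc 1 y, f m = ∑ m ∈ Icc 1 y', f m + ∑ m ∈ Ioc y' y, f m := by
    have e3 : ∀ y : ℕ, Icc 1 y = Ioc 0 y := by
      intro y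
      ext b
      simp only [mem_Icc, mem_Ioc]
      omega
    rw [e3, e3, sum_Ioc_consecutive _ (Nat.zero_le _) h1]
  have h3 : 0 ≤ ∑ m ∈ Ioc y' y, f m := by
    rw [hf]
    exact sum_nonneg fun _ _ => ArithmeticFunction.vonMangoldt_nonneg
  have hcard : ((Ioc y' y).card : ℝ) ≤ s := by
    rw [Nat.card_Ioc]
    exact_mod_cast (by omega : y - y' ≤ s)
  have hlN : 0 ≤ Real.log N := Real.log_natCast_nonneg _
  have h4 : ∑ m ∈ Ioc y' y, f m ≤ s * Real.log N := by
    calc ∑ m ∈ Ioc y' y, f m ≤ ∑ _m ∈ Ioc y' y, Real.log N := by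
          refine sum_le_sum fun m hm => ?_
          rw [hf]
          rw [mem_Ioc] at hm
          have hm' : m ∈ Icc 1 y := by rw [mem_Icc]; omega
          have k1 := hpos m hm'
          have k2 := val_le hN hn hy hm'
          apply Pool.Agent.R460.GS.vm_le
          rw [mem_Icc]
          omega
      _ = ((Ioc y' y).card : ℝ) * Real.log N := by rw [sum_const, nsmul_eq_mul]
      _ ≤ s * Real.log N := mul_le_mul_of_nonneg_right hcard hlN
  have h5 : (y : ℝ) - y' ≤ s := by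
    have : (y : ℝ) ≤ y' + s := by exact_mod_cast h2
    linarith
  have h5' : 0 ≤ (y : ℝ) - y' := by
    have : (y' : ℝ) ≤ y := by exact_mod_cast h1
    linarith
  have h6 : Sz α n z * ((y : ℝ) - y') ≤ s * Real.log N := by
    calc Sz α n z * ((y : ℝ) - y') ≤ Real.log N * s := by
          apply mul_le_mul (s2.trans hV) h5 h5' hlN
      _ = _ := mul_comm _ _
  have h7 : 0 ≤ Sz α n z * ((y : ℝ) - y') := by positivity
  have e2 : ∑ m ∈ Icc 1 y, f m - Sz α n z * y = (∑ m ∈ Icc 1 y', f m - Sz α n z * y') +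
      (∑ m ∈ Ioc y' y, f m - Sz α n z * ((y : ℝ) - y')) := by
    rw [e1]
    ring
  rw [e2]
  refine (abs_add_le _ _).trans (add_le_add le_rfl ?_)
  rw [abs_le]
  constructor <;> linarith

open Classical in
/-- the exceptional integers in a residue class -/
noncomputable def badSq (α : ℤ) (C X z q : ℕ) (b : ℤ) : Finset ℤ :=
  (Icc (-(X : ℤ)) X).filter (fun n : ℤ => (n : ZMod q) = (b : ZMod q) ∧ ¬ GoodSq α C X z n)

theorem sq_main (hErr : ErrSqStm) {α : ℤ} (hα : α ≠ 0) (ρ : ℝ) (hρ : 0 < ρ) (A C T : ℕ) :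
    ∃ B : ℕ, ∀ E : ℕ, ∃ X₀ : ℕ, ∀ X : ℕ, X₀ ≤ X → ∀ z : ℕ, Real.log X ^ B ≤ z → (z : ℝ) ≤ Real.log X ^ E →
      ∀ q : ℕ, 1 ≤ q → (q : ℝ) ≤ (X : ℝ) ^ (1 / 2 - ρ) → (q.divisors.card : ℝ) ≤ Real.log X ^ T →
      ∀ b : ℤ, (Int.gcd b q : ℝ) ≤ Real.log X ^ T →
        ((badSq α C X z q b).card : ℝ) ≤ (X : ℝ) / (q * Real.log X ^ A) := by
  classical
  obtain ⟨A', hA'⟩ : ∃ A', A' = A + 3 * C + 8 := ⟨_, rfl⟩
  obtain ⟨B', hB'⟩ := hErr α hα A' T ρ hρ
  refine ⟨B' + 1, fun E => ?_⟩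
  obtain ⟨N₁, h1⟩ := hB' E
  obtain ⟨X₁, h2⟩ := near_sq hα (C + 1) E
  obtain ⟨X₂, h3⟩ := Filter.eventually_atTop.1 (ev_log (A + C + 3) (s := min ρ (1 / 2)) (by positivity)
    (2 ^ B' + 100 + 32 * (|(α : ℝ)| + 1) ^ 2))
  obtain ⟨X₃, h4⟩ := Filter.eventually_atTop.1 (ev_log (C + 4) (s := 1 / 2) (by norm_num) 1)
  obtain ⟨X₄, h5⟩ := Vz_inv_small E
  refine ⟨N₁ + X₁ + X₂ + X₃ + X₄ + 3, fun X hX z hz1 hz2 q hq1 hqX hτ b hb => ?_⟩
  have hX1 : 1 ≤ X := by omega
  have hX0 : (0 : ℝ) < X := by exact_mod_cast hX1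
  have hX1r : (1 : ℝ) ≤ X := by exact_mod_cast hX1
  obtain ⟨hLb, hLp⟩ := h3 X (by omega)
  obtain ⟨-, hLp2⟩ := h4 X (by omega)
  have c2 := h2 X (by omega)
  replace h5 := h5 X (by omega)
  obtain ⟨N, hN⟩ : ∃ N, N = (α.natAbs + 1) * X := ⟨_, rfl⟩
  have hXN : X ≤ N := by
    rw [hN]
    nlinarith [Nat.zero_le (α.natAbs * X)]
  have hnat : (α.natAbs : ℝ) = |(α : ℝ)| := by rw [Nat.cast_natAbs, Int.cast_abs]
  obtain ⟨g, hg⟩ : ∃ g, g = |(α : ℝ)| + 1 := ⟨_, rfl⟩
  have hg1 : 1 ≤ g := by rw [hg]; have := abs_nonneg (α : ℝ); linarith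
  have hNr : (N : ℝ) = g * X := by rw [hN, hg]; push_cast; rw [hnat]
  have c1 := h1 N (by omega)
  have hN0 : (0 : ℝ) < N := by rw [hNr]; positivity
  have hL2 : Real.log X ≤ Real.log N := Real.log_le_log hX0 (by exact_mod_cast hXN)
  rw [← hg] at hLb
  have h2B : (0 : ℝ) < 2 ^ B' := by positivity
  have hL3 : Real.log N ≤ 2 * Real.log X := by
    rw [hNr, Real.log_mul (by positivity) hX0.ne']
    have h6 : Real.log g ≤ g := (Real.log_le_sub_one_of_pos (by linarith)).trans (by linarith)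
    nlinarith
  obtain ⟨L, hLd⟩ : ∃ L, L = Real.log (X : ℝ) := ⟨_, rfl⟩
  obtain ⟨L', hLd'⟩ : ∃ L', L' = Real.log (N : ℝ) := ⟨_, rfl⟩
  rw [← hLd] at hLb hLp hLp2 c2 hb hL2 hL3 hz1 hz2 hτ h5 ⊢
  rw [← hLd'] at c1 hL2 hL3
  have hL100 : 100 ≤ L := by nlinarith
  have hg32 : 32 * g ^ 2 ≤ L := by linarith
  have hL0 : 0 < L := by linarith
  have hL1 : 1 ≤ L := by linarith
  have hL0' : 0 < L' := by linarith
  have hq0 : (0 : ℝ) < q := by exact_mod_cast hq1
  have : NeZero q := ⟨by omega⟩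
  have hzB : L' ^ B' ≤ z := by
    calc L' ^ B' ≤ (2 * L) ^ B' := pow_le_pow_left₀ hL0'.le hL3 _
      _ = 2 ^ B' * L ^ B' := mul_pow _ _ _
      _ ≤ L * L ^ B' := mul_le_mul_of_nonneg_right (by nlinarith) (by positivity)
      _ = L ^ (B' + 1) := by ring
      _ ≤ z := hz1
  have hz1' : 1 ≤ z := by
    have : (1 : ℝ) ≤ z := (one_le_pow₀ hL1).trans hz1
    exact_mod_cast this
  obtain ⟨hV, hms⟩ := c1 z hzB (hz2.trans (pow_le_pow_left₀ hL0.le hL2 _))
  obtain ⟨M, hM⟩ : ∃ M, M = Real.sqrt X := ⟨_, rfl⟩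
  have hM0 : 0 < M := by rw [hM]; exact Real.sqrt_pos.2 hX0
  have hMM : M * M = X := by rw [hM]; exact Real.mul_self_sqrt hX0.le
  have hMr : M = (X : ℝ) ^ (1 / 2 : ℝ) := by rw [hM, Real.sqrt_eq_rpow]
  have hML : L ^ (C + 4) ≤ M := by rw [hMr]; exact hLp2
  have hqM : (q : ℝ) * L ^ (A + C + 3) ≤ M := by
    calc (q : ℝ) * L ^ (A + C + 3) ≤ (X : ℝ) ^ (1 / 2 - ρ) * (X : ℝ) ^ ρ := by
          apply mul_le_mul hqX _ (by positivity) (by positivity)
          exact hLp.trans (Real.rpow_le_rpow_of_exponent_le hX1r (min_le_left _ _))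
      _ = M := by
          rw [← Real.rpow_add hX0, hMr]
          congr 1
          ring
  have hVX : (Vz z)⁻¹ ≤ L := h5 z hz1' hz2
  have hYq : ∃ Y, Y = Nat.sqrt X := ⟨_, rfl⟩
  obtain ⟨Y, hY⟩ := hYq
  have hY2 : Y ^ 2 ≤ X := by rw [hY]; exact Nat.sqrt_le' X
  have hYy : ∀ y : ℕ, y ^ 2 ≤ X → y ≤ Y := by
    intro y hy
    rw [hY]
    exact Nat.le_sqrt'.2 hy
  have hYM : (Y : ℝ) ≤ M := by
    rw [hM]
    apply Real.le_sqrt_of_sq_le
    exact_mod_cast hY2
  -- the two sets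
  obtain ⟨t, ht⟩ : ∃ t : ℝ, t = M / (4 * L ^ C) := ⟨_, rfl⟩
  have ht0 : 0 < t := by rw [ht]; positivity
  obtain ⟨H, hH⟩ : ∃ H, H = badSq α C X z q b := ⟨_, rfl⟩
  rw [← hH]
  obtain ⟨PP, hPP⟩ : ∃ PP : ℤ → ℝ, PP = fun n => ∑ m ∈ Icc 1 Y,
    if 1 ≤ n - α * (m : ℤ) ^ 2 then ppw (n - α * (m : ℤ) ^ 2).toNat else 0 := ⟨_, rfl⟩
  have hmem : ∀ n ∈ H, |n| ≤ X ∧ (n : ZMod q) = (b : ZMod q) ∧ ¬ GoodSq α C X z n := by
    intro n hn
    rw [hH] at hn
    unfold badSq at hn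
    rw [mem_filter, mem_Icc] at hn
    exact ⟨abs_le.2 hn.1, hn.2.1, hn.2.2⟩
  have hsplit : (H.card : ℝ) = ((H.filter (fun n => t ≤ PP n)).card : ℝ) +
      ((H.filter (fun n => ¬ t ≤ PP n)).card : ℝ) := by
    exact_mod_cast (card_filter_add_card_filter_not (s := H) (fun n => t ≤ PP n)).symm
  -- the prime powers
  have hH1 : ((H.filter (fun n => t ≤ PP n)).card : ℝ) ≤ (X : ℝ) / (q * L ^ A) / 2 := by
    have k1 := pp_count (α := α) (X := X) (N := N) (Y := Y) (hX1.trans hXN) (by rw [hN])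
      (H.filter (fun n => t ≤ PP n)) (fun n hn => (hmem n (mem_filter.1 hn).1).1) hY2 (t := t)
      (fun n hn => by
        have := (mem_filter.1 hn).2
        rw [hPP] at this
        exact this)
    rw [← hLd'] at k1
    have hsN : Real.sqrt N ≤ g * M := by
      rw [hNr, Real.sqrt_mul (by linarith), ← hM]
      have : Real.sqrt g ≤ g := by
        rw [Real.sqrt_le_left (by linarith)]
        nlinarith
      gcongr
    have k2 : ((H.filter (fun n => t ≤ PP n)).card : ℝ) * t ≤ M * (2 * (g * M) * (2 * L)) := by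
      refine k1.trans ?_
      gcongr
    have k3 : ((H.filter (fun n => t ≤ PP n)).card : ℝ) ≤ M * (2 * (g * M) * (2 * L)) / t := by
      rw [le_div_iff₀ ht0]
      exact k2
    refine k3.trans ?_
    have e1 : M * (2 * (g * M) * (2 * L)) / t = 16 * g * M * L ^ (C + 1) := by
      rw [ht]
      field_simp
      ring
    rw [e1, div_div, le_div_iff₀ (by positivity)]
    calc 16 * g * M * L ^ (C + 1) * (q * L ^ A * 2) = (32 * g) * M * (q * L ^ (A + C + 1)) := by ring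
      _ ≤ L ^ 2 * M * (q * L ^ (A + C + 1)) := by
          have : 32 * g ≤ L ^ 2 := by nlinarith
          gcongr
      _ = M * (q * L ^ (A + C + 3)) := by ring
      _ ≤ M * M := by gcongr
      _ = X := hMM
  -- the correlations
  obtain ⟨Tg, hTg⟩ : ∃ Tg, Tg = ⌈L ^ (C + 3)⌉₊ := ⟨_, rfl⟩
  have hT1 : L ^ (C + 3) ≤ Tg := by rw [hTg]; exact Nat.le_ceil _
  have hLV : 1 ≤ L ^ (C + 3) := one_le_pow₀ hL1
  have hTg0 : 0 < Tg := by
    have : (0 : ℝ) < Tg := by linarith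
    exact_mod_cast this
  have hT2 : (Tg : ℝ) + 1 ≤ L ^ (C + 4) := by
    have h4 : (Tg : ℝ) < L ^ (C + 3) + 1 := by
      rw [hTg]
      exact Nat.ceil_lt_add_one (by positivity)
    calc (Tg : ℝ) + 1 ≤ 3 * L ^ (C + 3) := by linarith
      _ ≤ L * L ^ (C + 3) := mul_le_mul_of_nonneg_right (by linarith) (by positivity)
      _ = L ^ (C + 4) := by ring
  obtain ⟨s, hs⟩ : ∃ s, s = Y / Tg + 1 := ⟨_, rfl⟩
  have hs1 : 1 ≤ s := by rw [hs]; exact Nat.le_add_left 1 _
  have hsr : (s : ℝ) ≤ 2 * M / L ^ (C + 3) := by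
    have a1 : ((Y / Tg : ℕ) : ℝ) ≤ (Y : ℝ) / Tg := Nat.cast_div_le
    have a2 : (Y : ℝ) / Tg ≤ M / L ^ (C + 3) := by gcongr
    have a3 : 1 ≤ M / L ^ (C + 3) := by
      rw [one_le_div (by positivity)]
      refine le_trans ?_ hML
      exact pow_le_pow_right₀ hL1 (by omega)
    have a4 : 2 * M / L ^ (C + 3) = M / L ^ (C + 3) + M / L ^ (C + 3) := by ring
    rw [hs, a4]
    push_cast
    linarith
  have hH2 : ((H.filter (fun n => ¬ t ≤ PP n)).card : ℝ) ≤ (X : ℝ) / (q * L ^ A) / 2 := by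
    obtain ⟨R, hR⟩ : ∃ R, R = (N : ℝ) ^ 2 / (q * L' ^ A') := ⟨_, rfl⟩
    have hgcd : (Nat.gcd ((b : ZMod q)).val q : ℝ) ≤ L' ^ T := by
      have e1 : Nat.gcd ((b : ZMod q)).val q = Int.gcd b q := by
        have e2 : (((b : ZMod q).val : ℕ) : ℤ) = b % (q : ℤ) := ZMod.val_intCast b
        have e3 : (b : ZMod q).val = (b % (q : ℤ)).toNat := by omega
        rw [e3, gcd_toNat q b hq1]
      rw [e1]
      exact hb.trans (pow_le_pow_left₀ hL0.le hL2 _)
    have hqN : (q : ℝ) ≤ (N : ℝ) ^ (1 / 2 - ρ) := by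
      rcases le_or_gt 0 (1 / 2 - ρ) with h6 | h6
      · exact hqX.trans (Real.rpow_le_rpow hX0.le (by exact_mod_cast hXN) h6)
      · exfalso
        have h7 : (X : ℝ) ^ (1 / 2 - ρ) < 1 := Real.rpow_lt_one_of_one_lt_of_neg (by
          have : 3 ≤ X := by omega
          exact_mod_cast (by omega : 1 < X)) h6
        have h8 : (1 : ℝ) ≤ q := by exact_mod_cast hq1
        linarith
    have hms' := hms q hqN (hτ.trans (pow_le_pow_left₀ hL0.le hL2 _)) (b : ZMod q) hgcd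
    have k1 := cvs_count (α := α) (N := N) (Y := Y) (Tg := Tg) (s := s) (z := z) (b : ZMod q)
      (H.filter (fun n => ¬ t ≤ PP n)) (R := R) (t := t)
      (by
        intro n hn
        obtain ⟨k1, k2, -⟩ := hmem n (mem_filter.1 hn).1
        unfold cls
        rw [mem_filter, mem_Icc]
        have k3 := abs_le.1 k1
        have k4 : (X : ℤ) ≤ (((α.natAbs + 1) * N : ℕ) : ℤ) := by
          have : X ≤ (α.natAbs + 1) * N := hXN.trans (Nat.le_mul_of_pos_left N (Nat.succ_pos _))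
          exact_mod_cast this
        exact ⟨⟨by linarith [k3.1], by linarith [k3.2]⟩, k2⟩)
      (fun y hy => by rw [hR]; exact hms' y hy) (hY2.trans hXN)
      (by
        intro n hn
        rw [mem_filter] at hn
        obtain ⟨m1, m2, m3⟩ := hmem n hn.1
        have m4 := hn.2
        rw [not_le, hPP] at m4
        simp only at m4
        unfold GoodSq at m3
        push Not at m3
        obtain ⟨y, hy, hpos, hlt⟩ := m3
        rw [← hM, ← hLd] at hlt
        have hyY := hYy y hy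
        have d1 : y / s * s ≤ y := Nat.div_mul_le_self y s
        refine ⟨y / s, ?_, ?_⟩
        · rw [mem_range]
          have d2 : Y < Tg * s := by
            rw [hs]
            exact Nat.lt_mul_div_succ Y hTg0
          have d3 : y / s < Tg := by
            rw [Nat.div_lt_iff_lt_mul hs1]
            omega
          omega
        · rw [min_eq_left (d1.trans hyY)]
          -- the prime powers
          have p1 : ∑ m ∈ Icc 1 y, ppw (n - α * (m : ℤ) ^ 2).toNat ≤ t := by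
            refine le_trans ?_ m4.le
            calc ∑ m ∈ Icc 1 y, ppw (n - α * (m : ℤ) ^ 2).toNat =
                ∑ m ∈ Icc 1 y, (if 1 ≤ n - α * (m : ℤ) ^ 2 then ppw (n - α * (m : ℤ) ^ 2).toNat else 0) := by
                  refine sum_congr rfl fun m hm => ?_
                  rw [if_pos (hpos m hm)]
              _ ≤ _ := by
                  apply sum_le_sum_of_subset_of_nonneg (Icc_subset_Icc le_rfl hyY)
                  intro m _ _
                  split_ifs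
                  · exact ppw_nn _
                  · exact le_rfl
          have p1' : 0 ≤ ∑ m ∈ Icc 1 y, ppw (n - α * (m : ℤ) ^ 2).toNat := sum_nonneg fun _ _ => ppw_nn _
          have p2 : ∑ m ∈ Icc 1 y, ArithmeticFunction.vonMangoldt (n - α * (m : ℤ) ^ 2).toNat =
              ∑ m ∈ Icc 1 y, thp (n - α * (m : ℤ) ^ 2).toNat + ∑ m ∈ Icc 1 y, ppw (n - α * (m : ℤ) ^ 2).toNat := by
            rw [← sum_add_distrib]
            exact sum_congr rfl fun m _ => vm_split _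
          have g1 := grid_step (α := α) (n := n) (X := X) (N := N) (y := y) (s := s) (z := z) (by rw [hN]) m1 hy hs1
            (by rw [← hLd']; exact hV) hpos
          have g2 := c2 z hz1' hz2 hVX n (y / s * s) N ((Nat.pow_le_pow_left d1 2).trans hy) (by
            intro m hm
            have hm' : m ∈ Icc 1 y := Icc_subset_Icc le_rfl d1 hm
            exact ⟨hpos m hm', val_le (by rw [hN]) m1 hy hm'⟩)
          rw [← hLd'] at g1
          rw [← hM] at g2
          have g3 : 2 * ((s : ℝ) * L') ≤ M / L ^ C * (8 / L ^ 2) := by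
            calc 2 * ((s : ℝ) * L') ≤ 2 * ((2 * M / L ^ (C + 3)) * (2 * L)) := by gcongr
              _ = M / L ^ C * (8 / L ^ 2) := by
                  rw [pow_add L C 3]
                  field_simp
                  ring
          have g4 : M / L ^ (C + 1) = M / L ^ C * (1 / L) := by
            rw [pow_succ]
            field_simp
          have g5 : 8 / L ^ 2 + 1 / L ≤ 1 / 2 := by
            have a1 : 8 / L ^ 2 ≤ 1 / 4 := by
              rw [div_le_div_iff₀ (by positivity) (by norm_num)]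
              nlinarith
            have a2 : 1 / L ≤ 1 / 4 := by
              rw [div_le_div_iff₀ hL0 (by norm_num)]
              linarith
            linarith
          have g6 : t = M / L ^ C * (1 / 4) := by rw [ht]; field_simp
          have g7 : 0 < M / L ^ C := by positivity
          have g8 := mul_le_mul_of_nonneg_left g5 g7.le
          rw [g4] at g2
          have g9 : |∑ m ∈ Icc 1 y, thp (n - α * (m : ℤ) ^ 2).toNat - Sz α n z * y| ≤
              |∑ m ∈ Icc 1 y, ArithmeticFunction.vonMangoldt (n - α * (m : ℤ) ^ 2).toNat - Sz α n z * y| + t := by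
            rw [p2]
            have e : ∑ m ∈ Icc 1 y, thp (n - α * (m : ℤ) ^ 2).toNat - Sz α n z * y =
                (∑ m ∈ Icc 1 y, thp (n - α * (m : ℤ) ^ 2).toNat +
                  ∑ m ∈ Icc 1 y, ppw (n - α * (m : ℤ) ^ 2).toNat - Sz α n z * y) -
                ∑ m ∈ Icc 1 y, ppw (n - α * (m : ℤ) ^ 2).toNat := by ring
            rw [e]
            refine (abs_sub _ _).trans (add_le_add le_rfl ?_)
            rw [abs_of_nonneg p1']
            exact p1
          rw [mul_add] at g8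
          linarith)
      ht0
    refine k1.trans ?_
    have e1 : R ≤ g ^ 2 * X ^ 2 / (q * L ^ A') := by
      rw [hR, hNr, mul_pow]
      apply div_le_div_of_nonneg_left (by positivity) (by positivity)
      apply mul_le_mul_of_nonneg_left _ (by positivity)
      exact pow_le_pow_left₀ hL0.le hL2 _
    have hR0 : 0 ≤ R := by rw [hR]; positivity
    calc ((Tg : ℝ) + 1) * R / t ^ 2 ≤ L ^ (C + 4) * (g ^ 2 * X ^ 2 / (q * L ^ A')) / t ^ 2 := by gcongr
      _ = 16 * g ^ 2 * (X / (q * L ^ A)) / L ^ 4 := by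
          have e2 : L ^ A' = L ^ A * L ^ (2 * C) * L ^ (C + 4) * L ^ 4 := by
            rw [hA', ← pow_add, ← pow_add, ← pow_add]
            congr 1
            omega
          have e3 : t ^ 2 = X / (16 * L ^ (2 * C)) := by
            rw [ht, div_pow, mul_pow, ← pow_mul, mul_comm C 2, sq M, hMM]
            norm_num
          rw [e2, e3]
          field_simp
      _ ≤ X / (q * L ^ A) / 2 := by
          have e4 : 16 * g ^ 2 * (X / (q * L ^ A)) / L ^ 4 = X / (q * L ^ A) * (16 * g ^ 2 / L ^ 4) := by ring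
          have e5 : X / (q * L ^ A) / 2 = X / (q * L ^ A) * (1 / 2) := by ring
          rw [e4, e5]
          apply mul_le_mul_of_nonneg_left _ (by positivity)
          rw [div_le_div_iff₀ (by positivity) (by norm_num)]
          have : L ≤ L ^ 4 := by
            calc L = L ^ 1 := (pow_one L).symm
              _ ≤ L ^ 4 := pow_le_pow_right₀ hL1 (by norm_num)
          linarith
  rw [hsplit]
  linarith

end Pool.Agent.R460.SQ
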