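import Pool.Agent.R460.SQ.Cnt
import Pool.Agent.R460.GS.Base
import Pool.Agent.Y614.GJ.Core
import Pool.Agent.H807R2.Dav1

set_option autoImplicit false

/-! Incomplete sums of a character over the values of a quadratic polynomial. -/

namespace Pool.Agent.R460.SQ

open Finset
open Pool.Agent.Y662.GJ (sum_zmod)
open Pool.Agent.H807R2.Dav (ee norm_ee ee_add dd dd_le)
open Pool.Agent.Y614.GJ.Core (q_le_phi)
open Pool.Agent.R460.GS (abelIBV)

lemma sum_range_per {q : ℕ} [NeZero q] (f : ZMod q → ℂ) (hf : ∀ k, ‖f k‖ ≤ 1) (n : ℕ) :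
    ‖∑ m ∈ range n, f (m : ZMod q)‖ ≤ (n : ℝ) / q * ‖∑ k : ZMod q, f k‖ + q := by
  have hq : 0 < q := NeZero.pos q
  have hq0 : (0 : ℝ) < q := by exact_mod_cast hq
  have h1 : ∀ t : ℕ, ∑ m ∈ range (q * t), f (m : ZMod q) = t * ∑ k : ZMod q, f k := by
    intro t
    induction t with
    | zero => simp
    | succ t ih =>
      rw [Nat.mul_succ, sum_range_add, ih, sum_zmod]
      have : ∑ x ∈ range q, f ((q * t + x : ℕ) : ZMod q) = ∑ x ∈ range q, f (x : ZMod q) := by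
        refine sum_congr rfl fun x _ => ?_
        congr 1
        push_cast
        rw [ZMod.natCast_self, zero_mul, zero_add]
      rw [this]
      push_cast
      ring
  have h2 : n = q * (n / q) + n % q := (Nat.div_add_mod n q).symm
  have h3 : ∑ m ∈ range n, f (m : ZMod q) = ((n / q : ℕ) : ℂ) * ∑ k : ZMod q, f k +
      ∑ x ∈ range (n % q), f ((q * (n / q) + x : ℕ) : ZMod q) := by
    rw [← h1, ← sum_range_add, ← h2]
  rw [h3]
  refine (norm_add_le _ _).trans (add_le_add ?_ ?_)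
  · rw [norm_mul, Complex.norm_natCast]
    exact mul_le_mul_of_nonneg_right Nat.cast_div_le (norm_nonneg _)
  · refine (norm_sum_le _ _).trans ?_
    calc ∑ x ∈ range (n % q), ‖f ((q * (n / q) + x : ℕ) : ZMod q)‖ ≤ ∑ _x ∈ range (n % q), (1 : ℝ) :=
          sum_le_sum fun x _ => hf _
      _ = ((n % q : ℕ) : ℝ) := by rw [sum_const, card_range, nsmul_eq_mul, mul_one]
      _ ≤ q := by exact_mod_cast (Nat.mod_lt _ hq).le

lemma sum_Icc_per {q : ℕ} [NeZero q] (f : ZMod q → ℂ) (hf : ∀ k, ‖f k‖ ≤ 1) (n : ℕ) :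
    ‖∑ m ∈ Icc 1 n, f (m : ZMod q)‖ ≤ (n : ℝ) / q * ‖∑ k : ZMod q, f k‖ + q := by
  have e : ∑ m ∈ Icc 1 n, f (m : ZMod q) = ∑ m ∈ range n, (fun k => f (k + 1)) (m : ZMod q) := by
    rw [Finset.range_eq_Ico]
    have := Finset.sum_Ico_add' (fun m : ℕ => f (m : ZMod q)) 0 n 1
    simp only [Nat.cast_add, Nat.cast_one] at this
    rw [this]
    exact sum_congr (by ext b; simp only [mem_Icc, mem_Ico]; omega) fun _ _ => rfl
  rw [e]
  have h := sum_range_per (fun k => f (k + 1)) (fun k => hf _) n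
  have e2 : ∑ k : ZMod q, f (k + 1) = ∑ k : ZMod q, f k :=
    Fintype.sum_equiv (Equiv.addRight 1) _ _ fun k => rfl
  rw [e2] at h
  exact h

lemma ee_diff (x y : ℝ) : ‖ee x - ee y‖ ≤ 2 * Real.pi * |x - y| := by
  have h1 : ee x - ee y = -(ee y * (1 - ee (x - y))) := by
    have : ee x = ee y * ee (x - y) := by rw [← ee_add]; congr 1; ring
    rw [this]
    ring
  rw [h1, norm_neg, norm_mul, norm_ee, one_mul]
  exact dd_le _

lemma var_le (α : ℤ) (η : ℝ) (y : ℕ) :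
    ∑ i ∈ range y, ‖ee ((α : ℝ) * ((i + 1 : ℕ) : ℝ) ^ 2 * η) - ee ((α : ℝ) * (i : ℝ) ^ 2 * η)‖ ≤
      2 * Real.pi * |(α : ℝ)| * |η| * (y : ℝ) ^ 2 := by
  induction y with
  | zero => simp
  | succ y ih =>
    rw [sum_range_succ]
    have h1 := ee_diff ((α : ℝ) * ((y + 1 : ℕ) : ℝ) ^ 2 * η) ((α : ℝ) * (y : ℝ) ^ 2 * η)
    have h2 : (α : ℝ) * ((y + 1 : ℕ) : ℝ) ^ 2 * η - (α : ℝ) * (y : ℝ) ^ 2 * η = (α : ℝ) * η * (2 * y + 1) := by
      push_cast
      ring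
    rw [h2, abs_mul, abs_mul, abs_of_nonneg (by positivity : (0 : ℝ) ≤ 2 * y + 1)] at h1
    have h3 : 2 * Real.pi * |(α : ℝ)| * |η| * ((y + 1 : ℕ) : ℝ) ^ 2 =
        2 * Real.pi * |(α : ℝ)| * |η| * (y : ℝ) ^ 2 + 2 * Real.pi * (|(α : ℝ)| * |η| * (2 * y + 1)) := by
      push_cast
      ring
    linarith

/-- the twisted incomplete sum -/
lemma W_le {q : ℕ} [NeZero q] (α : ℤ) (χ : DirichletCharacter ℂ q) (a : ZMod q) (η : ℝ) (y : ℕ) :
    ‖∑ m ∈ Icc 1 y, ee ((α : ℝ) * (m : ℝ) ^ 2 * η) * χ (a - (α : ZMod q) * (m : ZMod q) ^ 2)‖ ≤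
      ((y : ℝ) / q * ‖Sq α χ a‖ + q) * (1 + 2 * Real.pi * |(α : ℝ)| * |η| * (y : ℝ) ^ 2) := by
  have h := abelIBV (fun m : ℕ => χ (a - (α : ZMod q) * (m : ZMod q) ^ 2))
    (fun m : ℕ => ee ((α : ℝ) * (m : ℝ) ^ 2 * η)) ((y : ℝ) / q * ‖Sq α χ a‖ + q) 1
    (2 * Real.pi * |(α : ℝ)| * |η| * (y : ℝ) ^ 2) y ?_ ?_ ?_ zero_le_one
  · simpa only [smul_eq_mul] using h
  · intro m hm
    refine (sum_Icc_per (fun k => χ (a - (α : ZMod q) * k ^ 2)) (fun k => DirichletCharacter.norm_le_one _ _) m).trans ?_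
    have hmr : (m : ℝ) ≤ y := by exact_mod_cast hm
    have hq0 : (0 : ℝ) < q := by exact_mod_cast NeZero.pos q
    have : (m : ℝ) / q ≤ (y : ℝ) / q := by gcongr
    have h3 := mul_le_mul_of_nonneg_right this (norm_nonneg (Sq α χ a))
    unfold Sq at h3 ⊢
    linarith
  · intro m _
    rw [norm_ee]
  · exact var_le α η y

/-- the twisted incomplete sum, large conductor -/
lemma shq {q N : ℕ} [NeZero q] {α : ℤ} (hα : α ≠ 0) {B C T : ℕ} {L : ℝ} (hL : L = Real.log N)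
    (hL8 : 8 ≤ L) (hLα : 48 * |(α : ℝ)| ≤ L) (hN : 1 ≤ N)
    (hqN : (q : ℝ) ≤ N) (hq : (q : ℝ) * L ^ (B + C + 2) ≤ Real.sqrt N) (hτ : (q.divisors.card : ℝ) ≤ L ^ T)
    (χ : DirichletCharacter ℂ q) (hχ : L ^ (3 * T + 4 + 2 * (B + C + 2)) < χ.conductor) (a : ZMod q)
    (ha : (Nat.gcd a.val q : ℝ) ≤ L ^ T) (η : ℝ) (hη : |η| ≤ L ^ C / N) (y : ℕ) (hy : y ^ 2 ≤ N) :
    ‖∑ m ∈ Icc 1 y, ee ((α : ℝ) * (m : ℝ) ^ 2 * η) * χ (a - (α : ZMod q) * (m : ZMod q) ^ 2)‖ ≤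
      Real.sqrt N / L ^ B := by
  have hL0 : 0 < L := by linarith
  have hL1 : 1 ≤ L := by linarith
  have hN0 : (0 : ℝ) < N := by exact_mod_cast hN
  have hq0 : (0 : ℝ) < q := by exact_mod_cast NeZero.pos q
  have hα1 : (1 : ℝ) ≤ |(α : ℝ)| := by
    rw [← Int.cast_abs]
    exact_mod_cast Int.one_le_abs hα
  have hc0 : (0 : ℝ) < χ.conductor := lt_of_le_of_lt (by positivity) hχ
  have hφ0 : (0 : ℝ) < q.totient := by exact_mod_cast Nat.totient_pos.2 (NeZero.pos q)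
  have hlq : Real.log q ≤ L := by
    rw [hL]
    exact Real.log_le_log hq0 hqN
  have hlq0 : 0 ≤ Real.log q := Real.log_natCast_nonneg _
  obtain ⟨B', hB'⟩ : ∃ B', B' = B + C + 2 := ⟨_, rfl⟩
  rw [← hB'] at hq hχ
  -- the complete sum
  have h1 : ‖Sq α χ a‖ ≤ q / L ^ B' := by
    have e1 := Sq_le hα χ a
    have e2 : (q : ℝ) ≤ 3 * L * q.totient := by
      have h1 := q_le_phi (NeZero.pos q)
      calc (q : ℝ) ≤ q.totient * (1 + 2 * Real.log q) := by
            refine h1.trans (le_of_eq ?_)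
            ring
        _ ≤ q.totient * (3 * L) := by
            apply mul_le_mul_of_nonneg_left _ hφ0.le
            linarith
        _ = _ := by ring
    have e3 : (q / Real.sqrt χ.conductor * (1 + Real.log q)) ^ 2 = q ^ 2 * (1 + Real.log q) ^ 2 / χ.conductor := by
      rw [mul_pow, div_pow, Real.sq_sqrt hc0.le]
      ring
    rw [e3] at e1
    have e4 : (q.totient : ℝ) * ‖Sq α χ a‖ ^ 2 ≤ q.totient * (q / L ^ B') ^ 2 := by
      refine e1.trans ?_
      calc (2 * (Nat.gcd a.val q : ℝ) * q.divisors.card) * (q ^ 2 * (1 + Real.log q) ^ 2 / χ.conductor *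
            (2 * |(α : ℝ)| * (q.divisors.card * q)))
          ≤ (2 * L ^ T * L ^ T) * (q ^ 2 * (2 * L) ^ 2 / L ^ (3 * T + 4 + 2 * B') *
            (2 * |(α : ℝ)| * (L ^ T * (3 * L * q.totient)))) := by
            gcongr
            linarith
        _ = q.totient * (q / L ^ B') ^ 2 * (48 * |(α : ℝ)|) / L := by
            have : L ^ (3 * T + 4 + 2 * B') = L ^ T * L ^ T * L ^ T * L ^ 4 * (L ^ B') ^ 2 := by
              rw [← pow_mul]
              ring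
            rw [this]
            field_simp
            ring
        _ ≤ q.totient * (q / L ^ B') ^ 2 * L / L := by gcongr
        _ = _ := by field_simp
    have e5 := le_of_mul_le_mul_left e4 hφ0
    exact (pow_le_pow_iff_left₀ (norm_nonneg _) (by positivity) two_ne_zero).1 e5
  have hyr : (y : ℝ) ≤ Real.sqrt N := by
    apply Real.le_sqrt_of_sq_le
    exact_mod_cast hy
  have hy2 : (y : ℝ) ^ 2 ≤ N := by exact_mod_cast hy
  have h2 : (y : ℝ) / q * ‖Sq α χ a‖ + q ≤ 2 * (Real.sqrt N / L ^ B') := by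
    have e1 : (y : ℝ) / q * ‖Sq α χ a‖ ≤ Real.sqrt N / L ^ B' := by
      calc (y : ℝ) / q * ‖Sq α χ a‖ ≤ Real.sqrt N / q * (q / L ^ B') := by gcongr
        _ = _ := by field_simp
    have e2 : (q : ℝ) ≤ Real.sqrt N / L ^ B' := by
      rw [le_div_iff₀ (by positivity)]
      exact hq
    linarith
  have h3 : 1 + 2 * Real.pi * |(α : ℝ)| * |η| * (y : ℝ) ^ 2 ≤ L ^ (C + 1) := by
    have e1 : |η| * (y : ℝ) ^ 2 ≤ L ^ C := by
      calc |η| * (y : ℝ) ^ 2 ≤ L ^ C / N * N := by gcongr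
        _ = L ^ C := by field_simp
    have hpi := Real.pi_lt_four
    have e2 : 2 * Real.pi * |(α : ℝ)| * |η| * (y : ℝ) ^ 2 ≤ 8 * |(α : ℝ)| * L ^ C := by
      calc 2 * Real.pi * |(α : ℝ)| * |η| * (y : ℝ) ^ 2 = 2 * Real.pi * |(α : ℝ)| * (|η| * (y : ℝ) ^ 2) := by ring
        _ ≤ 2 * 4 * |(α : ℝ)| * L ^ C := by gcongr
        _ = _ := by ring
    have e3 : 1 ≤ L ^ C := one_le_pow₀ hL1
    have e4 : 1 + 8 * |(α : ℝ)| * L ^ C ≤ 9 * |(α : ℝ)| * L ^ C := by nlinarith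
    have e5 : 9 * |(α : ℝ)| * L ^ C ≤ L * L ^ C := by
      apply mul_le_mul_of_nonneg_right _ (by positivity)
      linarith
    have e6 : L ^ (C + 1) = L * L ^ C := by ring
    rw [e6]
    linarith
  refine (W_le α χ a η y).trans ?_
  calc _ ≤ 2 * (Real.sqrt N / L ^ B') * L ^ (C + 1) := by
        apply mul_le_mul h2 h3 (by positivity) (by positivity)
    _ = Real.sqrt N / L ^ B * (2 / L) := by
        rw [hB', show B + C + 2 = B + (C + 1) + 1 by ring, pow_succ, pow_add]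
        field_simp
    _ ≤ Real.sqrt N / L ^ B * 1 := by
        apply mul_le_mul_of_nonneg_left _ (by positivity)
        rw [div_le_one hL0]
        linarith
    _ = _ := mul_one _

end Pool.Agent.R460.SQ
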