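import Pool.Agent.Y662.GJ.JGauss

set_option autoImplicit false

/-! Complete sums of a character over the values of a quadratic polynomial. -/

namespace Pool.Agent.R460.SQ

open Finset
open Pool.Agent.Y662.GJ (fs conv_bound card_ker fs_char_le)

variable {q : ℕ} [NeZero q]

/-- the number of solutions of `α k² = l` -/
def rt (α : ℤ) (q : ℕ) [NeZero q] (l : ZMod q) : ℕ :=
  (univ.filter (fun k : ZMod q => (α : ZMod q) * k ^ 2 = l)).card

lemma sum_rt {M : Type*} [AddCommMonoid M] (α : ℤ) (φ : ZMod q → M) :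
    ∑ k : ZMod q, φ ((α : ZMod q) * k ^ 2) = ∑ l : ZMod q, rt α q l • φ l := by
  rw [← Finset.sum_fiberwise (univ : Finset (ZMod q)) (fun k => (α : ZMod q) * k ^ 2)
    (fun k => φ ((α : ZMod q) * k ^ 2))]
  refine sum_congr rfl fun l _ => ?_
  unfold rt
  rw [sum_congr rfl fun k hk => by rw [(mem_filter.1 hk).2], sum_const]

lemma card_lin (c d : ZMod q) : (univ.filter (fun k : ZMod q => k * c = d)).card ≤ Nat.gcd c.val q := by
  rcases (univ.filter (fun k : ZMod q => k * c = d)).eq_empty_or_nonempty with h | ⟨k0, h0⟩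
  · rw [h]
    simp
  · refine le_trans (Finset.card_le_card_of_injOn (fun k => k - k0) ?_ ?_) (card_ker c)
    · intro u hu
      simp only [coe_filter, mem_univ, true_and, Set.mem_setOf_eq, mem_filter] at hu h0 ⊢
      rw [sub_mul, hu, h0, sub_self]
    · intro u _ v _ h
      exact sub_left_injective h

lemma gcd_mul_val {α : ℤ} (hα : α ≠ 0) (u : ZMod q) :
    Nat.gcd ((α : ZMod q) * u).val q ≤ α.natAbs * Nat.gcd u.val q := by
  obtain ⟨g, hg⟩ : ∃ g, g = Nat.gcd ((α : ZMod q) * u).val q := ⟨_, rfl⟩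
  rw [← hg]
  have hgq : g ∣ q := by rw [hg]; exact Nat.gcd_dvd_right _ _
  have hgv : g ∣ ((α : ZMod q) * u).val := by rw [hg]; exact Nat.gcd_dvd_left _ _
  have h1 : ((((α : ZMod q) * u).val : ℤ) : ZMod q) = ((α * (u.val : ℤ) : ℤ) : ZMod q) := by
    push_cast
    rw [ZMod.natCast_zmod_val, ZMod.natCast_zmod_val]
  rw [ZMod.intCast_eq_intCast_iff_dvd_sub] at h1
  have h2 : (g : ℤ) ∣ α * (u.val : ℤ) := by
    have h3 : (g : ℤ) ∣ (q : ℤ) := by exact_mod_cast hgq
    have h4 := h3.trans h1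
    have h5 : (g : ℤ) ∣ (((α : ZMod q) * u).val : ℤ) := by exact_mod_cast hgv
    have h6 := dvd_add h4 h5
    rwa [sub_add_cancel] at h6
  have h3 : g ∣ α.natAbs * u.val := by
    have := Int.natAbs_dvd_natAbs.2 h2
    rwa [Int.natAbs_mul, Int.natAbs_natCast, Int.natAbs_natCast] at this
  have h4 : g ∣ Nat.gcd q (α.natAbs * u.val) := Nat.dvd_gcd hgq h3
  have h5 : g ∣ Nat.gcd q α.natAbs * Nat.gcd q u.val := h4.trans (Nat.gcd_mul_right_dvd_mul_gcd _ _ _)
  have h6 : 0 < Nat.gcd q α.natAbs * Nat.gcd q u.val :=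
    Nat.mul_pos (Nat.gcd_pos_of_pos_left _ (NeZero.pos q)) (Nat.gcd_pos_of_pos_left _ (NeZero.pos q))
  refine (Nat.le_of_dvd h6 h5).trans ?_
  rw [Nat.gcd_comm q u.val]
  apply Nat.mul_le_mul_right
  exact Nat.gcd_le_right _ (Int.natAbs_pos.2 hα)

lemma sum_gcd : ∑ u : ZMod q, Nat.gcd u.val q ≤ q.divisors.card * q := by
  have hq0 : 0 < q := NeZero.pos q
  have h1 : ∀ u : ZMod q, Nat.gcd u.val q ≤ ∑ d ∈ q.divisors, if d ∣ u.val then d else 0 := by
    intro u
    have h2 : Nat.gcd u.val q ∈ q.divisors := Nat.mem_divisors.2 ⟨Nat.gcd_dvd_right _ _, hq0.ne'⟩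
    refine le_trans (le_of_eq ?_) (single_le_sum (f := fun d => if d ∣ u.val then d else 0)
      (fun _ _ => Nat.zero_le _) h2)
    rw [if_pos (Nat.gcd_dvd_left _ _)]
  have h2 : ∀ d ∈ q.divisors, ∑ u : ZMod q, (if d ∣ u.val then d else 0) ≤ q := by
    intro d hd
    have hdq := (Nat.mem_divisors.1 hd).1
    have hd0 : 0 < d := Nat.pos_of_dvd_of_pos hdq hq0
    rw [← sum_filter, sum_const, smul_eq_mul]
    have h3 : (univ.filter (fun u : ZMod q => d ∣ u.val)).card ≤ q / d := by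
      have h4 : (univ.filter (fun u : ZMod q => d ∣ u.val)).card ≤ (range (q / d)).card := by
        refine Finset.card_le_card_of_injOn (fun u => u.val / d) ?_ ?_
        · intro u hu
          simp only [coe_filter, mem_univ, true_and, Set.mem_setOf_eq, coe_range, Set.mem_Iio] at hu ⊢
          rw [Nat.div_lt_iff_lt_mul hd0, Nat.div_mul_cancel hdq]
          exact ZMod.val_lt u
        · intro u hu v hv h
          simp only [coe_filter, mem_univ, true_and, Set.mem_setOf_eq] at hu hv h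
          apply ZMod.val_injective q
          rw [← Nat.div_mul_cancel hu, ← Nat.div_mul_cancel hv, h]
      rwa [card_range] at h4
    calc (univ.filter (fun u : ZMod q => d ∣ u.val)).card * d ≤ q / d * d := Nat.mul_le_mul_right _ h3
      _ = q := Nat.div_mul_cancel hdq
  calc ∑ u : ZMod q, Nat.gcd u.val q ≤ ∑ u : ZMod q, ∑ d ∈ q.divisors, (if d ∣ u.val then d else 0) :=
        sum_le_sum fun u _ => h1 u
    _ = ∑ d ∈ q.divisors, ∑ u : ZMod q, (if d ∣ u.val then d else 0) := sum_comm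
    _ ≤ ∑ _d ∈ q.divisors, q := sum_le_sum h2
    _ = q.divisors.card * q := by rw [sum_const, smul_eq_mul]

/-- the second moment -/
lemma sum_rt_sq {α : ℤ} (hα : α ≠ 0) :
    ∑ l : ZMod q, rt α q l ^ 2 ≤ 2 * α.natAbs * (q.divisors.card * q) := by
  have e1 : ∑ l : ZMod q, rt α q l ^ 2 = ∑ k : ZMod q, rt α q ((α : ZMod q) * k ^ 2) := by
    rw [sum_rt α (fun l => rt α q l)]
    exact sum_congr rfl fun l _ => by rw [smul_eq_mul, sq]
  have e2 : ∑ k : ZMod q, rt α q ((α : ZMod q) * k ^ 2) =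
      ∑ k : ZMod q, ∑ u : ZMod q, if (α : ZMod q) * (k + u) ^ 2 = (α : ZMod q) * k ^ 2 then 1 else 0 := by
    refine sum_congr rfl fun k _ => ?_
    unfold rt
    rw [card_eq_sum_ones, sum_filter]
    exact (Fintype.sum_equiv (Equiv.addLeft k) _ _ fun u => rfl).symm
  rw [e1, e2, sum_comm]
  have h1 : ∀ u : ZMod q, ∑ k : ZMod q, (if (α : ZMod q) * (k + u) ^ 2 = (α : ZMod q) * k ^ 2 then 1 else 0) ≤
      2 * α.natAbs * Nat.gcd u.val q := by
    intro u
    rw [← sum_filter, ← card_eq_sum_ones]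
    have h2 : (univ.filter (fun k : ZMod q => (α : ZMod q) * (k + u) ^ 2 = (α : ZMod q) * k ^ 2)) ⊆
        univ.filter (fun k : ZMod q => k * (((2 * α : ℤ) : ZMod q) * u) = -((α : ZMod q) * u ^ 2)) := by
      intro k hk
      rw [mem_filter] at hk ⊢
      refine ⟨mem_univ _, ?_⟩
      have h3 := hk.2
      push_cast
      linear_combination h3
    refine (card_le_card h2).trans ((card_lin _ _).trans ?_)
    have h3 := gcd_mul_val (q := q) (α := 2 * α) (by omega) u
    rw [Int.natAbs_mul] at h3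
    exact h3
  refine (sum_le_sum fun u _ => h1 u).trans ?_
  rw [← mul_sum]
  exact Nat.mul_le_mul_left _ sum_gcd

/-- units whose square has a given product with `a` -/
lemma sol_sq (a b : ZMod q) :
    (univ.filter (fun u : (ZMod q)ˣ => (u : ZMod q) ^ 2 * a = b)).card ≤
      2 * Nat.gcd a.val q * q.divisors.card := by
  have hq0 : 0 < q := NeZero.pos q
  rcases (univ.filter (fun u : (ZMod q)ˣ => (u : ZMod q) ^ 2 * a = b)).eq_empty_or_nonempty with h | ⟨u0, h0⟩
  · rw [h]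
    simp
  rw [mem_filter] at h0
  have h0' := h0.2
  apply card_le_mul_card_image_of_maps_to (t := q.divisors)
    (f := fun u : (ZMod q)ˣ => Nat.gcd ((u : ZMod q) - (u0 : ZMod q)).val q)
  · intro u _
    exact Nat.mem_divisors.2 ⟨Nat.gcd_dvd_right _ _, hq0.ne'⟩
  · intro d hd
    obtain ⟨S, hS⟩ : ∃ S, S = (univ.filter (fun u : (ZMod q)ˣ => (u : ZMod q) ^ 2 * a = b)).filter
      (fun u : (ZMod q)ˣ => Nat.gcd ((u : ZMod q) - (u0 : ZMod q)).val q = d) := ⟨_, rfl⟩
    rw [← hS]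
    rcases S.eq_empty_or_nonempty with he | ⟨u1, hu1⟩
    · rw [he]
      simp
    -- the elements of the fibre
    have key : ∀ u ∈ S, (u : ZMod q) ^ 2 * a = b ∧ (∃ x' : ZMod q, (u : ZMod q) - u0 = (d : ZMod q) * x') ∧
        (d : ZMod q) * (((u : ZMod q) + u0) * a) = 0 := by
      intro u hu
      rw [hS, mem_filter, mem_filter] at hu
      obtain ⟨⟨-, k1⟩, k2⟩ := hu
      obtain ⟨x, hx⟩ : ∃ x : ZMod q, x = (u : ZMod q) - u0 := ⟨_, rfl⟩
      rw [← hx] at k2
      refine ⟨k1, ?_, ?_⟩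
      · rw [← hx]
        have hdx : d ∣ x.val := by rw [← k2]; exact Nat.gcd_dvd_left _ _
        obtain ⟨w, hw⟩ := hdx
        refine ⟨(w : ZMod q), ?_⟩
        rw [← Nat.cast_mul, ← hw, ZMod.natCast_zmod_val]
      · have hx0 : x * (((u : ZMod q) + u0) * a) = 0 := by
          rw [hx]
          linear_combination k1 - h0'
        have hb := Nat.gcd_eq_gcd_ab x.val q
        rw [k2] at hb
        have hb' : (d : ZMod q) = x * ((Nat.gcdA x.val q : ℤ) : ZMod q) := by
          have h5 : ((d : ℤ) : ZMod q) = (((x.val : ℤ) * Nat.gcdA x.val q + (q : ℤ) * Nat.gcdB x.val q : ℤ) : ZMod q) := by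
            rw [hb]
          push_cast at h5
          rw [ZMod.natCast_self, zero_mul, add_zero, ZMod.natCast_zmod_val] at h5
          exact h5
        rw [hb']
        calc x * ((Nat.gcdA x.val q : ℤ) : ZMod q) * (((u : ZMod q) + u0) * a) =
            (x * (((u : ZMod q) + u0) * a)) * ((Nat.gcdA x.val q : ℤ) : ZMod q) := by ring
          _ = 0 := by rw [hx0, zero_mul]
    obtain ⟨-, ⟨x1, hx1⟩, hy1⟩ := key u1 hu1
    have h2 : S.card ≤ (univ.filter (fun w : ZMod q => w * (((2 : ℤ) : ZMod q) * a) = 0)).card := by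
      refine Finset.card_le_card_of_injOn (fun u : (ZMod q)ˣ => (u : ZMod q) - (u1 : ZMod q)) ?_ ?_
      · intro u hu
        obtain ⟨-, ⟨x2, hx2⟩, hy2⟩ := key u hu
        simp only [coe_filter, mem_univ, true_and, Set.mem_setOf_eq]
        -- `u - u1 = d (x2 - x1)`
        have e1 : (u : ZMod q) - u1 = (d : ZMod q) * (x2 - x1) := by
          have : (u : ZMod q) - u1 = ((u : ZMod q) - u0) - ((u1 : ZMod q) - u0) := by ring
          rw [this, hx1, hx2]
          ring
        have e2 : ((u : ZMod q) - u1) * (((u : ZMod q) + u0) * a) = 0 := by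
          rw [e1]
          calc (d : ZMod q) * (x2 - x1) * (((u : ZMod q) + u0) * a) =
              ((d : ZMod q) * (((u : ZMod q) + u0) * a)) * (x2 - x1) := by ring
            _ = 0 := by rw [hy2, zero_mul]
        have e3 : (d : ZMod q) * (((u : ZMod q) - u1) * a) = 0 := by
          have : (d : ZMod q) * (((u : ZMod q) - u1) * a) = (d : ZMod q) * (((u : ZMod q) + u0) * a) -
              (d : ZMod q) * (((u1 : ZMod q) + u0) * a) := by ring
          rw [this, hy1, hy2, sub_zero]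
        have e4 : ((u : ZMod q) - u1) * (((u : ZMod q) - u0) * a) = 0 := by
          rw [hx2]
          calc ((u : ZMod q) - u1) * ((d : ZMod q) * x2 * a) = ((d : ZMod q) * (((u : ZMod q) - u1) * a)) * x2 := by
                ring
            _ = 0 := by rw [e3, zero_mul]
        have e5 : (((u : ZMod q) - u1) * (((2 : ℤ) : ZMod q) * a)) * (u0 : ZMod q) = 0 := by
          push_cast
          linear_combination e2 - e4
        exact (Units.mul_left_eq_zero u0).1 e5
      · intro u _ v _ h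
        exact Units.ext (sub_left_injective h)
    refine h2.trans ((card_ker _).trans ?_)
    exact gcd_mul_val (q := q) (α := 2) (by norm_num) a

/-- the complete sum -/
noncomputable def Sq (α : ℤ) (χ : DirichletCharacter ℂ q) (a : ZMod q) : ℂ :=
  ∑ k : ZMod q, χ (a - (α : ZMod q) * k ^ 2)

lemma Sq_unit (α : ℤ) (χ : DirichletCharacter ℂ q) (a : ZMod q) (u : (ZMod q)ˣ) :
    ‖Sq α χ ((u : ZMod q) ^ 2 * a)‖ = ‖Sq α χ a‖ := by
  have h1 : Sq α χ ((u : ZMod q) ^ 2 * a) = χ ((u : ZMod q) ^ 2) * Sq α χ a := by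
    unfold Sq
    rw [mul_sum, ← Equiv.sum_comp (Units.mulLeft u)]
    refine sum_congr rfl fun k _ => ?_
    rw [← map_mul]
    congr 1
    simp only [Units.mulLeft_apply]
    ring
  rw [h1, norm_mul, map_pow, norm_pow, DirichletCharacter.unit_norm_eq_one, one_pow, one_mul]

lemma Sq_mean {α : ℤ} (hα : α ≠ 0) (χ : DirichletCharacter ℂ q) :
    ∑ b : ZMod q, ‖Sq α χ b‖ ^ 2 ≤ (q / Real.sqrt χ.conductor * (1 + Real.log q)) ^ 2 *
      (2 * |(α : ℝ)| * (q.divisors.card * q)) := by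
  have h1 : ∀ b : ZMod q, Sq α χ b = ∑ l : ZMod q, χ l * ((rt α q (b - l) : ℕ) : ℂ) := by
    intro b
    unfold Sq
    rw [sum_rt α (fun l => χ (b - l)), ← Equiv.sum_comp (Equiv.subLeft b)]
    refine sum_congr rfl fun l _ => ?_
    simp only [Equiv.subLeft_apply]
    rw [nsmul_eq_mul, sub_sub_cancel, mul_comm]
  have h2 := conv_bound (fun l => χ l) (fun l => ((rt α q l : ℕ) : ℂ)) _ (fs_char_le q χ)
  rw [sum_congr rfl fun b _ => by rw [h1 b]]
  refine h2.trans ?_
  apply mul_le_mul_of_nonneg_left _ (sq_nonneg _)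
  have h3 : ∑ l : ZMod q, ‖((rt α q l : ℕ) : ℂ)‖ ^ 2 = ((∑ l : ZMod q, rt α q l ^ 2 : ℕ) : ℝ) := by
    push_cast
    refine sum_congr rfl fun l _ => ?_
    rw [Complex.norm_natCast]
  rw [h3]
  have h4 := sum_rt_sq (q := q) hα
  have h5 : ((∑ l : ZMod q, rt α q l ^ 2 : ℕ) : ℝ) ≤ ((2 * α.natAbs * (q.divisors.card * q) : ℕ) : ℝ) := by
    exact_mod_cast h4
  refine h5.trans (le_of_eq ?_)
  push_cast
  rw [Nat.cast_natAbs, Int.cast_abs]

/-- the bound for one complete sum -/
lemma Sq_le {α : ℤ} (hα : α ≠ 0) (χ : DirichletCharacter ℂ q) (a : ZMod q) :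
    (q.totient : ℝ) * ‖Sq α χ a‖ ^ 2 ≤ (2 * Nat.gcd a.val q * q.divisors.card) *
      ((q / Real.sqrt χ.conductor * (1 + Real.log q)) ^ 2 * (2 * |(α : ℝ)| * (q.divisors.card * q))) := by
  calc (q.totient : ℝ) * ‖Sq α χ a‖ ^ 2 = ∑ u : (ZMod q)ˣ, ‖Sq α χ ((u : ZMod q) ^ 2 * a)‖ ^ 2 := by
        simp_rw [Sq_unit]
        rw [Finset.sum_const, nsmul_eq_mul, Finset.card_univ, ZMod.card_units_eq_totient]
    _ = ∑ b, ∑ u ∈ univ.filter (fun u : (ZMod q)ˣ => (u : ZMod q) ^ 2 * a = b),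
          ‖Sq α χ ((u : ZMod q) ^ 2 * a)‖ ^ 2 := by
        rw [Finset.sum_fiberwise]
    _ = ∑ b, ((univ.filter (fun u : (ZMod q)ˣ => (u : ZMod q) ^ 2 * a = b)).card : ℝ) * ‖Sq α χ b‖ ^ 2 := by
        refine Finset.sum_congr rfl fun b _ => ?_
        rw [Finset.sum_congr rfl (fun u hu => by rw [(Finset.mem_filter.mp hu).2]),
          Finset.sum_const, nsmul_eq_mul]
    _ ≤ ∑ b, (2 * Nat.gcd a.val q * q.divisors.card : ℝ) * ‖Sq α χ b‖ ^ 2 := by
        refine Finset.sum_le_sum fun b _ => ?_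
        exact mul_le_mul_of_nonneg_right (by exact_mod_cast sol_sq a b) (sq_nonneg _)
    _ = (2 * Nat.gcd a.val q * q.divisors.card : ℝ) * ∑ b, ‖Sq α χ b‖ ^ 2 := by rw [Finset.mul_sum]
    _ ≤ _ := mul_le_mul_of_nonneg_left (Sq_mean hα χ) (by positivity)

end Pool.Agent.R460.SQ
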