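import Pool.Agent.R460.SQ.Main

set_option autoImplicit false

/-! Sums of a prime and a square in a residue class. -/

namespace Pool.Agent.R460.SQ

open Finset
open Pool.Agent.H373R2.T7 (lamz Vz pz Vz_pos Vz_inv_small nuB nuB_le mem_pz)
open Pool.Agent.Y614.GJ.Core (ev_log)

lemma QS_two {α : ℤ} (n : ℤ) (p : ℕ) (hp : p.Prime) (hpa : ¬ (p : ℤ) ∣ α) : nuB (QS α n) p ≤ 2 := by
  classical
  unfold nuB
  rcases ((range p).filter (fun r => QS α n p r)).eq_empty_or_nonempty with he | ⟨m₀, hm₀⟩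
  · have : ((range p).filter (fun r => QS α n p r)).card = 0 := by rw [he, card_empty]
    convert (this.le.trans (by norm_num : 0 ≤ 2)) using 1
  · rw [mem_filter, mem_range] at hm₀
    have hsub : (range p).filter (fun r => QS α n p r) ⊆ {m₀, p - m₀} := by
      intro m hm
      rw [mem_filter, mem_range] at hm
      rw [mem_insert, mem_singleton]
      have h3 : (p : ℤ) ∣ α * (((m : ℤ) - m₀) * ((m : ℤ) + m₀)) := by
        have h4 := dvd_sub hm₀.2 hm.2
        have e : (n - α * (m₀ : ℤ) ^ 2) - (n - α * (m : ℤ) ^ 2) = α * (((m : ℤ) - m₀) * ((m : ℤ) + m₀)) := by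
          ring
        rwa [e] at h4
      have hpz : Prime (p : ℤ) := Nat.prime_iff_prime_int.1 hp
      rcases hpz.dvd_or_dvd h3 with h4 | h4
      · exact absurd h4 hpa
      rcases hpz.dvd_or_dvd h4 with h5 | h5
      · left
        obtain ⟨c, hc⟩ := h5
        have h6 : c = 0 := by
          have a1 : (m : ℤ) < p := by exact_mod_cast hm.1
          have a2 : (m₀ : ℤ) < p := by exact_mod_cast hm₀.1
          by_contra h0
          rcases lt_or_gt_of_ne h0 with h | h
          · nlinarith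
          · nlinarith
        rw [h6, mul_zero] at hc
        omega
      · have h6 : p ∣ m + m₀ := by exact_mod_cast h5
        obtain ⟨c, hc⟩ := h6
        have hc2 : c < 2 := by
          by_contra h0
          push Not at h0
          have : p * 2 ≤ p * c := Nat.mul_le_mul_left p h0
          omega
        interval_cases c
        · left
          omega
        · right
          omega
    have h4 : ((range p).filter (fun r => QS α n p r)).card ≤ 2 := (card_le_card hsub).trans card_le_two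
    convert h4 using 1

lemma QS_at_two (n : ℤ) : nuB (QS 1 n) 2 ≤ 1 := by
  classical
  unfold nuB
  have h : ((range 2).filter (fun r => QS 1 n 2 r)).card ≤ 1 := by
    rw [card_le_one]
    intro a ha b hb
    rw [mem_filter, mem_range] at ha hb
    obtain ⟨a1, a2⟩ := ha
    obtain ⟨b1, b2⟩ := hb
    unfold QS at a2 b2
    interval_cases a <;> interval_cases b
    · rfl
    · norm_num at a2 b2
      omega
    · norm_num at a2 b2
      omega
    · rfl
  convert h using 1

/-- the lower bound for the singular series -/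
lemma Sz_low (n : ℤ) (z : ℕ) : Vz z ^ 2 ≤ Sz 1 n z := by
  have hV := Vz_pos z
  have h1 : Vz z ^ 3 ≤ ∏ p ∈ pz z, (1 - (nuB (QS 1 n) p : ℝ) / p) := by
    unfold Vz
    rw [← prod_pow]
    apply prod_le_prod
    · intro p hp
      have h2 : (2 : ℝ) ≤ p := by exact_mod_cast (mem_pz.1 hp).2.two_le
      have h3 : 1 / (p : ℝ) ≤ 1 := by
        rw [div_le_one (by linarith)]
        linarith
      exact pow_nonneg (by linarith) 3
    · intro p hp
      have hpp := (mem_pz.1 hp).2
      rcases hpp.eq_two_or_odd' with h2 | h2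
      · subst h2
        have h3 : (nuB (QS 1 n) 2 : ℝ) ≤ 1 := by exact_mod_cast QS_at_two n
        have h4 : (nuB (QS 1 n) 2 : ℝ) / ((2 : ℕ) : ℝ) ≤ 1 / 2 := by
          push_cast
          linarith
        push_cast at h4 ⊢
        norm_num at h4 ⊢
        linarith
      · have h3 : 3 ≤ p := by
          rcases h2 with ⟨k, hk⟩
          have := hpp.two_le
          omega
        have h3r : (3 : ℝ) ≤ p := by exact_mod_cast h3
        have hp0 : (0 : ℝ) < p := by linarith
        have h4 : (nuB (QS 1 n) p : ℝ) ≤ 2 := by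
          have h5 : ¬ (p : ℤ) ∣ 1 := by
            intro h6
            have := Int.le_of_dvd one_pos h6
            omega
          exact_mod_cast QS_two n p hpp h5
        have h5 : (nuB (QS 1 n) p : ℝ) / p ≤ 2 / p := by gcongr
        have h6 : (1 - 1 / (p : ℝ)) ^ 3 ≤ 1 - 2 / p := by
          have e : 1 - 2 / (p : ℝ) - (1 - 1 / (p : ℝ)) ^ 3 = ((p : ℝ) ^ 2 - 3 * p + 1) / p ^ 3 := by
            field_simp
            ring
          have e2 : 0 ≤ ((p : ℝ) ^ 2 - 3 * p + 1) / p ^ 3 := by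
            apply div_nonneg _ (by positivity)
            nlinarith
          linarith
        linarith
  unfold Sz
  calc Vz z ^ 2 = (Vz z)⁻¹ * Vz z ^ 3 := by field_simp
    _ ≤ _ := by gcongr

lemma Sz_prod (α n : ℤ) (z : ℕ) : Sz α n z = ∏ p ∈ pz z, (1 - (nuB (QS α n) p : ℝ) / p) / (1 - 1 / (p : ℝ)) := by
  unfold Sz Vz
  rw [prod_div_distrib, div_eq_inv_mul]

/-- the sum of `log p` over the solutions of `n = p + m²` with `1 ≤ m ≤ y` -/
noncomputable def RepS (n y : ℕ) : ℝ :=
  ∑ m ∈ Icc 1 y, if (n - m ^ 2).Prime then Real.log ((n - m ^ 2 : ℕ) : ℝ) else 0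

/-- the conclusion for one integer -/
def GoodS (C N z n : ℕ) : Prop :=
  (∃ p m : ℕ, p.Prime ∧ n = p + m ^ 2) ∧
  ∀ y : ℕ, y ^ 2 < n → |RepS n y - Sz 1 n z * y| ≤ Real.sqrt N / Real.log N ^ C

lemma RepS_eq {n y : ℕ} (hy : y ^ 2 < n) : RepS n y = ∑ m ∈ Icc 1 y, thp ((n : ℤ) - 1 * (m : ℤ) ^ 2).toNat := by
  unfold RepS thp
  refine sum_congr rfl fun m hm => ?_
  rw [mem_Icc] at hm
  have h1 : m ^ 2 ≤ n := (Nat.pow_le_pow_left hm.2 2).trans hy.le
  have h2 : ((n : ℤ) - 1 * (m : ℤ) ^ 2).toNat = n - m ^ 2 := by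
    have : (n : ℤ) - 1 * (m : ℤ) ^ 2 = ((n - m ^ 2 : ℕ) : ℤ) := by
      push_cast [h1]
      ring
    rw [this, Int.toNat_natCast]
  rw [h2]

open Classical in
theorem fin_sq (ρ : ℝ) (hρ : 0 < ρ) (A C T : ℕ) :
    ∃ B : ℕ, ∀ E : ℕ, ∃ N₀ : ℕ, ∀ N : ℕ, N₀ ≤ N → ∀ z : ℕ, Real.log N ^ B ≤ z → (z : ℝ) ≤ Real.log N ^ E →
      ∀ q : ℕ, 1 ≤ q → (q : ℝ) ≤ (N : ℝ) ^ (1 / 2 - ρ) → (q.divisors.card : ℝ) ≤ Real.log N ^ T →
      ∀ b : ℕ, (Nat.gcd b q : ℝ) ≤ Real.log N ^ T →
        (((Icc 1 N).filter (fun n => n ≡ b [MOD q] ∧ ¬ GoodS C N z n)).card : ℝ) ≤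
          (N : ℝ) / (q * Real.log N ^ A) := by
  obtain ⟨C', hC'⟩ : ∃ C', C' = C + A + 6 := ⟨_, rfl⟩
  obtain ⟨B, hB⟩ := sq_main errSq_all (α := 1) one_ne_zero ρ hρ (A + 1) C' T
  refine ⟨B, fun E => ?_⟩
  obtain ⟨N₁, h1⟩ := hB E
  obtain ⟨N₂, h2⟩ := Vz_inv_small E
  obtain ⟨N₃, h3⟩ := Filter.eventually_atTop.1 (ev_log (A + 3) (s := min ρ (1 / 2)) (by positivity) 100)
  refine ⟨N₁ + N₂ + N₃ + 3, fun N hN z hz1 hz2 q hq1 hqN hτ b hb => ?_⟩
  have hN1 : 1 ≤ N := by omega
  have hN0 : (0 : ℝ) < N := by exact_mod_cast hN1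
  have hN1r : (1 : ℝ) ≤ N := by exact_mod_cast hN1
  have hq0 : (0 : ℝ) < q := by exact_mod_cast hq1
  obtain ⟨hLb, hLp⟩ := h3 N (by omega)
  have c1 := h1 N (by omega) z hz1 hz2 q hq1 hqN hτ (b : ℤ) (by
    rw [Int.gcd_natCast_natCast]
    exact hb)
  obtain ⟨L, hLd⟩ : ∃ L, L = Real.log (N : ℝ) := ⟨_, rfl⟩
  have hL100 : 100 ≤ L := by rw [hLd]; exact hLb
  have hL0 : 0 < L := by linarith
  have hL1 : 1 ≤ L := by linarith
  rw [← hLd] at hLp c1 hz1 hz2 hτ hb ⊢
  have hz0 : 1 ≤ z := by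
    have : (1 : ℝ) ≤ z := (one_le_pow₀ hL1).trans hz1
    exact_mod_cast this
  have hV := h2 N (by omega) z hz0 (by rw [← hLd]; exact hz2)
  rw [← hLd] at hV
  obtain ⟨M, hM⟩ : ∃ M, M = Real.sqrt N := ⟨_, rfl⟩
  have hM0 : 0 < M := by rw [hM]; exact Real.sqrt_pos.2 hN0
  have hMM : M * M = N := by rw [hM]; exact Real.mul_self_sqrt hN0.le
  have hMr : M = (N : ℝ) ^ (1 / 2 : ℝ) := by rw [hM, Real.sqrt_eq_rpow]
  have hML : L ^ (A + 3) ≤ M := by
    rw [hMr]
    exact hLp.trans (Real.rpow_le_rpow_of_exponent_le hN1r (min_le_right _ _))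
  have hP1 : 1 ≤ L ^ (A + 2) := one_le_pow₀ hL1
  have hqM : (q : ℝ) * L ^ (A + 3) ≤ M := by
    calc (q : ℝ) * L ^ (A + 3) ≤ (N : ℝ) ^ (1 / 2 - ρ) * (N : ℝ) ^ ρ := by
          apply mul_le_mul hqN _ (by positivity) (by positivity)
          exact hLp.trans (Real.rpow_le_rpow_of_exponent_le hN1r (min_le_left _ _))
      _ = M := by
          rw [← Real.rpow_add hN0, hMr]
          congr 1
          ring
  have hM1 : 1 ≤ M := le_trans (one_le_pow₀ hL1) hML
  have hMN : M ≤ N := by
    rw [← hMM]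
    nlinarith
  -- the small integers
  obtain ⟨K, hK⟩ : ∃ K : ℕ, K = ⌊(N : ℝ) / L ^ (A + 2)⌋₊ := ⟨_, rfl⟩
  have hKr : (K : ℝ) ≤ (N : ℝ) / L ^ (A + 2) := by
    rw [hK]
    exact Nat.floor_le (by positivity)
  have hKl : (N : ℝ) / L ^ (A + 2) < K + 1 := by
    rw [hK]
    exact Nat.lt_floor_add_one _
  have hsub : (Icc 1 N).filter (fun n => n ≡ b [MOD q] ∧ ¬ GoodS C N z n) ⊆
      ((Icc 1 K).filter (fun n : ℕ => (n : ZMod q) = (b : ZMod q))) ∪
      (badSq 1 C' N z q (b : ℤ)).image Int.toNat := by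
    intro n hn
    rw [mem_filter, mem_Icc] at hn
    obtain ⟨⟨n1, n2⟩, n3, n4⟩ := hn
    have n3' : (n : ZMod q) = (b : ZMod q) := (ZMod.natCast_eq_natCast_iff _ _ _).2 n3
    rw [mem_union]
    rcases le_or_gt n K with h5 | h5
    · left
      rw [mem_filter, mem_Icc]
      exact ⟨⟨n1, h5⟩, n3'⟩
    · right
      rw [mem_image]
      refine ⟨(n : ℤ), ?_, Int.toNat_natCast n⟩
      unfold badSq
      rw [mem_filter, mem_Icc]
      refine ⟨⟨by linarith [Int.natCast_nonneg n, Int.natCast_nonneg N], by exact_mod_cast n2⟩,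
        by exact_mod_cast n3', fun hg => n4 ?_⟩
      -- the main property
      have hgood : ∀ y : ℕ, y ^ 2 < n → |RepS n y - Sz 1 n z * y| ≤ M / L ^ C' := by
        intro y hy
        rw [RepS_eq hy, hM, hLd]
        apply hg y (by omega)
        intro m hm
        rw [mem_Icc] at hm
        have : m ^ 2 < n := lt_of_le_of_lt (Nat.pow_le_pow_left hm.2 2) hy
        have : (m : ℤ) ^ 2 < n := by exact_mod_cast this
        linarith
      refine ⟨?_, fun y hy => (hgood y hy).trans ?_⟩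
      · -- the representation
        obtain ⟨y, hy⟩ : ∃ y, y = Nat.sqrt (n - 1) := ⟨_, rfl⟩
        have hy1 : y ^ 2 < n := by
          have : y ^ 2 ≤ n - 1 := by rw [hy]; exact Nat.sqrt_le' _
          omega
        have hy2 : n ≤ (y + 1) ^ 2 := by
          have : n - 1 < (y + 1) ^ 2 := by rw [hy]; exact Nat.lt_succ_sqrt' _
          omega
        have h6 := hgood y hy1
        by_contra hno
        have h7 : RepS n y = 0 := by
          unfold RepS
          apply sum_eq_zero
          intro m hm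
          rw [if_neg]
          intro hp
          apply hno
          refine ⟨n - m ^ 2, m, hp, ?_⟩
          rw [mem_Icc] at hm
          have : m ^ 2 < n := lt_of_le_of_lt (Nat.pow_le_pow_left hm.2 2) hy1
          omega
        rw [h7, zero_sub, abs_neg] at h6
        have hS := Sz_low (n : ℤ) z
        have hVp := Vz_pos z
        have hV2 : 1 / L ^ 2 ≤ Sz 1 (n : ℤ) z := by
          refine le_trans ?_ hS
          have : 1 / L ≤ Vz z := by
            rw [one_div]
            exact inv_le_of_inv_le₀ hVp hV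
          calc 1 / L ^ 2 = (1 / L) ^ 2 := by rw [div_pow, one_pow]
            _ ≤ Vz z ^ 2 := by gcongr
        have e1 : (N : ℝ) < L ^ (A + 2) * ((y : ℝ) + 1) ^ 2 := by
          have e2 : (K : ℝ) + 1 ≤ n := by exact_mod_cast h5
          have e3 : (n : ℝ) ≤ ((y : ℝ) + 1) ^ 2 := by exact_mod_cast hy2
          have e4 : (N : ℝ) / L ^ (A + 2) < ((y : ℝ) + 1) ^ 2 := by linarith
          rw [div_lt_iff₀ (by positivity)] at e4
          linarith
        have e2 : M ≤ L ^ (A + 2) * ((y : ℝ) + 1) := by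
          have : M ^ 2 ≤ (L ^ (A + 2) * ((y : ℝ) + 1)) ^ 2 := by
            rw [sq, hMM, mul_pow]
            refine e1.le.trans ?_
            apply mul_le_mul_of_nonneg_right _ (sq_nonneg _)
            nlinarith
          exact (pow_le_pow_iff_left₀ hM0.le (by positivity) two_ne_zero).1 this
        have e3 : 1 ≤ (y : ℝ) := by
          have h8 : L ^ (A + 2) * L ≤ L ^ (A + 2) * ((y : ℝ) + 1) := by
            refine le_trans ?_ e2
            calc L ^ (A + 2) * L = L ^ (A + 3) := by ring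
              _ ≤ M := hML
          have h9 := le_of_mul_le_mul_left h8 (by positivity)
          linarith
        have hyr : M ≤ 2 * L ^ (A + 2) * y := by
          refine e2.trans ?_
          have : L ^ (A + 2) * ((y : ℝ) + 1) ≤ L ^ (A + 2) * (2 * y) := by gcongr; linarith
          linarith
        have h8 : Sz 1 (n : ℤ) z * y ≤ M / L ^ C' := le_trans (le_abs_self _) h6
        have h9 : 1 / L ^ 2 * (M / (2 * L ^ (A + 2))) ≤ M / L ^ C' := by
          refine le_trans ?_ h8
          apply mul_le_mul hV2 _ (by positivity) (le_trans (by positivity) hV2)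
          rw [div_le_iff₀ (by positivity)]
          linarith
        have h10 : M / L ^ C' = 1 / L ^ 2 * (M / (2 * L ^ (A + 2))) * (2 / L ^ (C + 2)) := by
          have : L ^ C' = L ^ 2 * L ^ (A + 2) * L ^ (C + 2) := by rw [hC']; ring
          rw [this]
          field_simp
        rw [h10] at h9
        have h11 : 2 / L ^ (C + 2) < 1 := by
          rw [div_lt_one (by positivity)]
          have : L ^ 1 ≤ L ^ (C + 2) := pow_le_pow_right₀ hL1 (by omega)
          linarith
        have h12 : 0 < 1 / L ^ 2 * (M / (2 * L ^ (A + 2))) := by positivity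
        nlinarith
      · rw [hM, ← hLd]
        apply div_le_div_of_nonneg_left (Real.sqrt_nonneg _) (by positivity)
        exact pow_le_pow_right₀ hL1 (by omega)
  have hc1 : (((Icc 1 K).filter (fun n : ℕ => (n : ZMod q) = (b : ZMod q))).card : ℝ) ≤ 2 * (N / (q * L ^ (A + 2))) := by
    have : NeZero q := ⟨by omega⟩
    have k1 := Pool.Agent.Y812.GJ.card_class q K (b : ZMod q)
    refine k1.trans ?_
    have k2 : (K : ℝ) / q ≤ N / (q * L ^ (A + 2)) := by
      calc (K : ℝ) / q ≤ ((N : ℝ) / L ^ (A + 2)) / q := by gcongr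
        _ = _ := by rw [div_div, mul_comm]
    have k3 : 1 ≤ (N : ℝ) / (q * L ^ (A + 2)) := by
      rw [one_le_div (by positivity)]
      calc (q : ℝ) * L ^ (A + 2) ≤ q * L ^ (A + 3) := by
            apply mul_le_mul_of_nonneg_left _ hq0.le
            exact pow_le_pow_right₀ hL1 (by omega)
        _ ≤ N := hqM.trans hMN
    linarith
  have hc2 : (((badSq 1 C' N z q (b : ℤ)).image Int.toNat).card : ℝ) ≤ N / (q * L ^ (A + 1)) := by
    refine le_trans ?_ c1
    exact_mod_cast card_image_le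
  calc (((Icc 1 N).filter (fun n => n ≡ b [MOD q] ∧ ¬ GoodS C N z n)).card : ℝ)
      ≤ ((((Icc 1 K).filter (fun n : ℕ => (n : ZMod q) = (b : ZMod q))) ∪
      (badSq 1 C' N z q (b : ℤ)).image Int.toNat).card : ℝ) := by exact_mod_cast card_le_card hsub
    _ ≤ (((Icc 1 K).filter (fun n : ℕ => (n : ZMod q) = (b : ZMod q))).card : ℝ) +
      (((badSq 1 C' N z q (b : ℤ)).image Int.toNat).card : ℝ) := by exact_mod_cast card_union_le _ _
    _ ≤ 2 * (N / (q * L ^ (A + 2))) + N / (q * L ^ (A + 1)) := add_le_add hc1 hc2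
    _ = N / (q * L ^ A) * (2 / L ^ 2 + 1 / L) := by
        rw [pow_add, pow_add]
        field_simp
    _ ≤ N / (q * L ^ A) * 1 := by
        apply mul_le_mul_of_nonneg_left _ (by positivity)
        have a1 : 2 / L ^ 2 ≤ 1 / 2 := by
          rw [div_le_div_iff₀ (by positivity) two_pos]
          nlinarith
        have a2 : 1 / L ≤ 1 / 2 := by
          rw [div_le_div_iff₀ hL0 two_pos]
          linarith
        linarith
    _ = _ := mul_one _

end Pool.Agent.R460.SQ
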